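import Mathlib

/-!
# Project su (MP_c66272_nt), Part T: the theorem of Gauss and Legendre on sums of three squares

(So that the final statement is about all integers. Proof of Landau / Ankeny / Nathanson with ternary forms of determinant `1` and Dirichlet's theorem.)
-/

set_option autoImplicit false

open Finset Matrix

namespace Pool.Agent.SU

/-- **TB1** (70 lines). Binary forms. Proof. `v(p, r) = a p² + 2 b p r + c r² > 0` for `(p, r) ≠ 0` (`a v = (a p + b r)² + d r²`, `d = a c - b²`). Among the first columns `(p, r)` of the integer matrices of determinant `1` choose one with minimal `v = a' ≥ 1` (values are positive integers), matrix `(p q; r s)`. Replacing `(q, s)` by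
`(q + t p, s + t r)` we may assume `|2 b'| ≤ a'`, `b' = a p q + b (p s + q r) + c r s`. `c' = v(q, s) ≥ a'` (`(q, -p; s, -r)` has determinant `- q r + p s = 1`). `a' c' - b'² = d`. So `a'² ≤ a' c' = d + b'² ≤ d + a'²/4`. -/
def TB1_stmt : Prop := ∀ a b c : ℤ, 0 < a → 0 < a * c - b ^ 2 → ∃ p q r s : ℤ, p * s - q * r = 1 ∧
  0 < a * p ^ 2 + 2 * b * p * r + c * r ^ 2 ∧ 3 * (a * p ^ 2 + 2 * b * p * r + c * r ^ 2) ^ 2 ≤ 4 * (a * c - b ^ 2)

/-- positive symmetric ternary forms of determinant `1` -/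
def TF (A : Matrix (Fin 3) (Fin 3) ℤ) : Prop :=
  Aᵀ = A ∧ A.det = 1 ∧ ∀ x : Fin 3 → ℤ, x ≠ 0 → 0 < x ⬝ᵥ (A *ᵥ x)

/-- **TPD** (70 lines). Proof. `a11 Q(x) = (a11 x1 + a12 x2 + a13 x3)² + G(x2, x3)`, `G = g22 x2² + 2 g23 x2 x3 + g33 x3²`, `g22 = a11 a22 - a12² > 0`, `g23 = a11 a23 - a12 a13`, `g33 = a11 a33 - a13²`, `g22 g33 - g23² = a11 det A = a11 > 0` (`ring`), so `g22 G = (g22 x2 + g23 x3)² + a11 x3²`. -/
def TPD_stmt : Prop := ∀ A : Matrix (Fin 3) (Fin 3) ℤ, Aᵀ = A → A.det = 1 → 0 < A 0 0 → 0 < A 0 0 * A 1 1 - A 0 1 ^ 2 → TF A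

/-- **TRD** (120 lines). uses: TB1. Proof. `TF` is invariant under `A ↦ Uᵀ A U`, `det U = 1`. Choose `U` with `(Uᵀ A U) 0 0` minimal (a positive integer) and replace `A` by `Uᵀ A U`; then `a11 ≤ (Vᵀ A V) 0 0` for all `V` of determinant `1`. TB1 for `G` (see TPD; determinant `a11`): `V = 1 ⊕ (p q; r s)` leaves `a11` and turns `G` into a form with `3 g22² ≤ 4 a11`
(`g22 = a11 a22 - a12²` of the new matrix, which is `G(p, r)`). A further `V` adding `t` times the first basis vector to the second makes `|2 a12| ≤ a11`, `g22` unchanged. `a22` is `(Vᵀ A V) 0 0` for `V` = (second basis vector, minus the first, third), so `a11 ≤ a22`: `a11² ≤ a11 a22 = g22 + a12² ≤ g22 + a11²/4`,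
`9 a11⁴/16 ≤ g22²`, `27 a11⁴ ≤ 64 a11`, so `a11 = 1`. -/
def TRD_stmt : Prop := ∀ A : Matrix (Fin 3) (Fin 3) ℤ, TF A → ∃ U : Matrix (Fin 3) (Fin 3) ℤ, U.det = 1 ∧ (Uᵀ * A * U) 0 0 = 1

/-- **TT1** (90 lines). uses: TB1, TRD. Proof. By TRD `A 0 0 = 1` after a change of basis; subtracting multiples of the first basis vector from the others: `a12 = a13 = 0`; then `(a22, a23, a33)` is a positive binary form of determinant `1`: TB1 gives (`3 a'² ≤ 4`) leading coefficient `1`, shear: `a23 = 0`, `a33 = 1`. So `Uᵀ A U = 1`, `det U = 1`,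
`A = (U⁻¹)ᵀ U⁻¹` (integer matrices: `U.adjugate`). -/
def TT1_stmt : Prop := ∀ A : Matrix (Fin 3) (Fin 3) ℤ, TF A → ∃ M : Matrix (Fin 3) (Fin 3) ℤ, A = Mᵀ * M

/-- **TQR** (50 lines). uses: TPD, TT1. Proof. `a22 = d n - 1 ≥ 1`, `a12 = x`, `a11 = (x² + d)/(d n - 1) ≥ 1`, `A = !![a11, a12, 1; a12, a22, 0; 1, 0, n]`: `det A = n (a11 a22 - a12²) - a22 = n d - a22 = 1`, `a11 a22 - a12² = d > 0`. `A = Mᵀ M`: `n = A 2 2 = ∑_i (M i 2)²`. -/
def TQR_stmt : Prop := ∀ n d x : ℤ, 2 ≤ n → 0 < d → (d * n - 1) ∣ (x ^ 2 + d) → ∃ a b c : ℤ, n = a ^ 2 + b ^ 2 + c ^ 2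

/-- **TN2** (70 lines). uses: TQR. Proof. `n - 1` is prime to `4 n`: a prime `p = n - 1` modulo `4 n`, `p > 4 n` (`Nat.forall_exists_prime_gt_and_eq_mod` or `Nat.infinite_setOf_prime_and_eq_mod`): `p = 4 n j + n - 1 = d n - 1`, `d = 4 j + 1`, `p = 1` modulo `4`. Jacobi symbols: `J(-d|p) = J(d|p) = J(p|d)` (`p = 1` modulo `4`)
`= J(-1|d) = 1` (`p = -1` modulo `d`, `d = 1` modulo `4`). So `- d` is a square modulo `p = d n - 1`. -/
def TN2_stmt : Prop := ∀ n : ℕ, n % 4 = 2 → ∃ a b c : ℤ, (n : ℤ) = a ^ 2 + b ^ 2 + c ^ 2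

/-- **TN1** (110 lines). uses: TQR. Proof. `n = 1`: `1 + 0 + 0`. `c = 1` if `n = 3` modulo `8`, `c = 3` if `n = 1, 5` modulo `8`. `(c n - 1)/2` is odd and prime to `n`, so prime to `4 n`; a prime `p = (c n - 1)/2` modulo `4 n`, `p` large: `p = 4 n j + (c n - 1)/2`, `d = 8 j + c`, `2 p = d n - 1`. `J(-d|p) = 1`: `J(2|d) J(p|d) = J(2p|d) = J(-1|d)` since `2 p = -1` modulo `d`.
`n = 3`: `d = 1` modulo `8`, `p = 1` modulo `4`: `J(-d|p) = J(d|p) = J(p|d) = J(-1|d) J(2|d) = 1`. `n = 1`: `d = 3` modulo `8`, `p = 1` modulo `4`: `J(-d|p) = J(p|d) = (-1)(-1) = 1`. `n = 5`: `d = 3` modulo `8`, `p = 3` modulo `4`: `J(-d|p) = - J(d|p) = J(p|d) = 1` (reciprocity, both `3` modulo `4`).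
So `x² = - d` modulo `p`, and `x` odd (replace `x` by `x + p`): `2 p ∣ x² + d`. TQR. -/
def TN1_stmt : Prop := ∀ n : ℕ, n % 8 = 1 ∨ n % 8 = 3 ∨ n % 8 = 5 → ∃ a b c : ℤ, (n : ℤ) = a ^ 2 + b ^ 2 + c ^ 2

/-- **T3S** (40 lines). uses: TN1, TN2. Proof. Strong induction. `n = 0`. `4 ∣ n`: `n / 4` is not of the form either; double the solution. Otherwise `n % 4 = 2` or `n` odd, `n % 8 ≠ 7`. Natural numbers by `Int.natAbs`. -/
def T3S_stmt : Prop := ∀ n : ℕ, (¬ ∃ a b : ℕ, n = 4 ^ a * (8 * b + 7)) → ∃ x y z : ℕ, n = x ^ 2 + y ^ 2 + z ^ 2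

end Pool.Agent.SU
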