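import Pool.Agent.helper40.SU.FourPow
import Pool.Agent.helper40.SU.SpecT

/-!
# Project su: all integers
-/

set_option autoImplicit false

open Finset Filter

namespace Pool.Agent.SU

/-- the non-admissible numbers have density `0` -/
theorem LST (h3 : T3S_stmt) (hFIN : FIN_stmt) :
    Tendsto (fun X : ℕ => (({n : ℕ | n < X ∧ ¬ ∃ x y z w : ℕ,
        n = x ^ 2 + y ^ 2 + z ^ 2 + w ^ 2 ∧ IsSquare (x ^ 4 + 1680 * y ^ 3 * z)}.ncard : ℕ) : ℝ) / X)
      atTop (nhds 0) := by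
  classical
  have h := ALL hFIN
  refine h.congr fun X => ?_
  congr 2
  have : {n : ℕ | n < X ∧ ¬ ∃ x y z w : ℕ,
        n = x ^ 2 + y ^ 2 + z ^ 2 + w ^ 2 ∧ IsSquare (x ^ 4 + 1680 * y ^ 3 * z)} =
      (((range X).filter (fun n => (∃ a b : ℕ, n = 4 ^ a * (8 * b + 7)) ∧ ¬ Adm n) : Finset ℕ) : Set ℕ) := by
    ext n
    simp only [Set.mem_setOf_eq, coe_filter, mem_range]
    constructor
    · rintro ⟨h1, h2⟩
      refine ⟨h1, ?_, h2⟩
      by_contra h4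
      obtain ⟨x, z, w, e⟩ := h3 n h4
      refine h2 ⟨x, 0, z, w, by rw [e]; ring, x ^ 2, by ring⟩
    · rintro ⟨h1, _, h2⟩
      exact ⟨h1, h2⟩
  rw [this, Set.ncard_coe_finset]

end Pool.Agent.SU
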