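import Pool.Agent.helper40.SU.SpecC

/-!
# Project su, row IRR
-/

set_option autoImplicit false

open Finset

namespace Pool.Agent.SU

theorem IRR_mem (D s f p : ℕ) (hp : p.Prime) (h : p ∣ irr D s f) : p ∣ D * s := by
  unfold irr at h
  rw [Prime.dvd_finset_prod_iff hp.prime] at h
  obtain ⟨r, hr, hpr⟩ := h
  rw [mem_filter, Nat.mem_primeFactors] at hr
  have h1 : p ∣ r := hp.dvd_of_dvd_pow hpr
  have h2 : p = r := (Nat.prime_dvd_prime_iff_eq hp hr.1.1).1 h1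
  rw [h2]; exact hr.2

theorem IRR : IRR_stmt := by
  intro D D' s s' f hf hdiv
  set h : ℕ := ∏ p ∈ f.primeFactors.filter (fun p => ¬ p ∣ D * s), p ^ (f.factorization p) with hh
  have hfac : f = irr D s f * h := by
    have h1 : ∏ p ∈ f.primeFactors, p ^ (f.factorization p) = f :=
      Nat.factorization_prod_pow_eq_self (by omega)
    conv_lhs => rw [← h1]
    rw [← Finset.prod_filter_mul_prod_filter_not f.primeFactors (fun p => p ∣ D * s)]
    rfl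
  have hj0 : 0 < irr D s f := by
    rcases Nat.eq_zero_or_pos (irr D s f) with h0 | h0
    · rw [h0, zero_mul] at hfac; omega
    · exact h0
  have hh0 : 0 < h := by
    rcases Nat.eq_zero_or_pos h with h0 | h0
    · rw [h0, mul_zero] at hfac; omega
    · exact h0
  have hhDs : h.Coprime (D * s) := by
    rw [hh]
    apply Nat.Coprime.prod_left
    intro p hp
    rw [mem_filter, Nat.mem_primeFactors] at hp
    exact Nat.Coprime.pow_left _ ((Nat.Prime.coprime_iff_not_dvd hp.1.1).2 hp.2)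
  have hjf : irr D s f ∣ f := ⟨h, hfac⟩
  have hhf : h ∣ f := ⟨irr D s f, by rw [mul_comm]; exact hfac⟩
  have hcop : (irr D s f).Coprime h := by
    apply Nat.coprime_of_dvd
    intro p hp h1 h2
    have h3 := IRR_mem D s f p hp h1
    have h4 : p ∣ Nat.gcd h (D * s) := Nat.dvd_gcd h2 h3
    rw [Nat.Coprime.gcd_eq_one hhDs] at h4
    exact hp.one_lt.ne' (Nat.dvd_one.1 h4)
  have hhD's' : h.Coprime (D' * s') := by
    apply Nat.coprime_of_dvd
    intro p hp h1 h2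
    have h3 : (p : ℤ) ∣ (D : ℤ) * (s : ℤ) ^ 2 - (D' : ℤ) * (s' : ℤ) ^ 2 :=
      dvd_trans (by exact_mod_cast dvd_trans h1 hhf) hdiv
    have h4 : (p : ℤ) ∣ (D' : ℤ) * (s' : ℤ) ^ 2 := by
      have : (p : ℤ) ∣ (D' : ℤ) * (s' : ℤ) := by exact_mod_cast h2
      have e : (D' : ℤ) * (s' : ℤ) ^ 2 = (D' : ℤ) * s' * s' := by ring
      rw [e]; exact Dvd.dvd.mul_right this _
    have h5 : (p : ℤ) ∣ (D : ℤ) * (s : ℤ) ^ 2 := by
      have := dvd_add h3 h4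
      simpa using this
    have h6 : p ∣ D * s ^ 2 := by exact_mod_cast h5
    have h7 : p ∣ D * s := by
      rcases (Nat.Prime.dvd_mul hp).1 h6 with h8 | h8
      · exact Dvd.dvd.mul_right h8 _
      · exact Dvd.dvd.mul_left (hp.dvd_of_dvd_pow h8) _
    have h8 : p ∣ Nat.gcd h (D * s) := Nat.dvd_gcd h1 h7
    rw [Nat.Coprime.gcd_eq_one hhDs] at h8
    exact hp.one_lt.ne' (Nat.dvd_one.1 h8)
  have hhs' : h.Coprime s' := Nat.Coprime.coprime_dvd_right (Dvd.intro_left D' rfl) hhD's'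
  refine ⟨h, hfac, hcop, hhDs, hhD's', ?_, ?_⟩
  · set j := irr D s f with hj
    unfold Cst
    rw [mem_filter, mem_product, mem_range, mem_range]
    refine ⟨⟨Nat.mod_lt _ hj0, Nat.mod_lt _ hj0⟩, ?_, ?_⟩
    · have h1 : (j : ℤ) ∣ (D : ℤ) * (s : ℤ) ^ 2 - (D' : ℤ) * (s' : ℤ) ^ 2 :=
        dvd_trans (by exact_mod_cast hjf) hdiv
      have h2 : ((s % j : ℕ) : ℤ) ≡ (s : ℤ) [ZMOD j] := by
        rw [Int.natCast_mod]; exact Int.mod_modEq _ _
      have h3 : ((s' % j : ℕ) : ℤ) ≡ (s' : ℤ) [ZMOD j] := by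
        rw [Int.natCast_mod]; exact Int.mod_modEq _ _
      have h4 : (D : ℤ) * ((s % j : ℕ) : ℤ) ^ 2 - (D' : ℤ) * ((s' % j : ℕ) : ℤ) ^ 2 ≡
          (D : ℤ) * (s : ℤ) ^ 2 - (D' : ℤ) * (s' : ℤ) ^ 2 [ZMOD j] :=
        Int.ModEq.sub ((h2.pow 2).mul_left _) ((h3.pow 2).mul_left _)
      exact (Int.modEq_zero_iff_dvd.1 (h4.trans (Int.modEq_zero_iff_dvd.2 h1)))
    · intro p hp
      rw [Nat.mem_primeFactors] at hp
      have h1 : p ∣ D * s := IRR_mem D s f p hp.1 hp.2.1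
      have h2 : s % j ≡ s [MOD p] := (Nat.mod_modEq s j).of_dvd hp.2.1
      have h3 : D * (s % j) ≡ D * s [MOD p] := h2.mul_left _
      exact (Nat.modEq_zero_iff_dvd.1 (h3.trans (Nat.modEq_zero_iff_dvd.2 h1)))
  · obtain ⟨b, hb⟩ : ∃ b : ℤ, (s' : ℤ) * b ≡ 1 [ZMOD h] := by
      have : IsCoprime (s' : ℤ) (h : ℤ) := Nat.isCoprime_iff_coprime.2 hhs'.symm
      obtain ⟨x, y, hxy⟩ := this
      refine ⟨x, ?_⟩
      rw [Int.modEq_iff_dvd]
      exact ⟨y, by linear_combination -hxy⟩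
    have hhz : (0 : ℤ) < h := by exact_mod_cast hh0
    obtain ⟨l, hl⟩ : ∃ l : ℕ, (l : ℤ) = ((s : ℤ) * b) % h :=
      ⟨(((s : ℤ) * b) % h).toNat, Int.toNat_of_nonneg (Int.emod_nonneg _ hhz.ne')⟩
    have hlm : (l : ℤ) ≡ (s : ℤ) * b [ZMOD h] := by
      rw [hl]; exact Int.mod_modEq _ _
    have hls : (l : ℤ) * s' ≡ s [ZMOD h] := by
      have h1 : (l : ℤ) * s' ≡ (s : ℤ) * b * s' [ZMOD h] := hlm.mul_right _
      have h2 : (s : ℤ) * ((s' : ℤ) * b) ≡ (s : ℤ) * 1 [ZMOD h] := hb.mul_left _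
      have e : (s : ℤ) * b * s' = (s : ℤ) * ((s' : ℤ) * b) := by ring
      rw [e] at h1
      have := h1.trans h2
      rwa [mul_one] at this
    refine ⟨l, ?_, ?_, ?_⟩
    · rw [mem_range]
      have : (l : ℤ) < h := by rw [hl]; exact Int.emod_lt_of_pos _ hhz
      exact_mod_cast this
    · have h1 : ((l : ℤ) * s') ^ 2 * D ≡ (s : ℤ) ^ 2 * D [ZMOD h] := (hls.pow 2).mul_right _
      have h2 : (h : ℤ) ∣ (D : ℤ) * (s : ℤ) ^ 2 - (D' : ℤ) * (s' : ℤ) ^ 2 :=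
        dvd_trans (by exact_mod_cast hhf) hdiv
      have h3 : (h : ℤ) ∣ ((l : ℤ) ^ 2 * D - D') * (s' : ℤ) ^ 2 := by
        have h4 : (h : ℤ) ∣ (s : ℤ) ^ 2 * D - ((l : ℤ) * s') ^ 2 * D := Int.modEq_iff_dvd.1 h1
        have h5 := dvd_sub h2 h4
        have e : (D : ℤ) * (s : ℤ) ^ 2 - (D' : ℤ) * (s' : ℤ) ^ 2 - ((s : ℤ) ^ 2 * D - ((l : ℤ) * s') ^ 2 * D)
            = ((l : ℤ) ^ 2 * D - D') * (s' : ℤ) ^ 2 := by ring
        rwa [e] at h5
      have hc : IsCoprime (h : ℤ) ((s' : ℤ) ^ 2) := (Nat.isCoprime_iff_coprime.2 hhs').pow_right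
      exact hc.dvd_of_dvd_mul_right h3
    · exact Int.modEq_iff_dvd.1 hls

end Pool.Agent.SU
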