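import Pool.Agent.helper35.SU.ADM
import Pool.Agent.helper71.SU.LO2
import Pool.Agent.helper92.SU.LOP
import Pool.Agent.helper39.SU.LOQ
import Pool.Agent.helper92.SU.LOC
import Pool.Agent.helper16.SU.QSM
import Pool.Agent.helper16.SU.TTT
import Pool.Agent.helper16.SU.SPL
import Pool.Agent.helper16.SU.SQA
import Pool.Agent.helper77.SU.NRC
import Pool.Agent.helper17.SU.CNT
import Pool.Agent.helper16.SU.SQB
import Pool.Agent.helper16.SU.HAS
import Pool.Agent.helper77.SU.QRT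
import Pool.Agent.helper84.SU.CR2
import Pool.Agent.helper17.SU.FUL
import Pool.Agent.helper29.SU.PER
import Pool.Agent.helper62.SU.OMG
import Pool.Agent.helper62.SU.GMR
import Pool.Agent.helper87.SU.DUA
import Pool.Agent.helper62.SU.DLS
import Pool.Agent.helper55.SU.RT1
import Pool.Agent.helper29.SU.RTD
import Pool.Agent.helper62.SU.LIN
import Pool.Agent.helper35.SU.DCO
import Pool.Agent.helper71.SU.NPR
import Pool.Agent.helper53.SU.GAP
import Pool.Agent.helper20.SU.SQF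
import Pool.Agent.helper62.SU.SMO
import Pool.Agent.helper62.SU.MLT
import Pool.Agent.helper98.SU.FMC
import Pool.Agent.helper84.SU.FAM
import Pool.Agent.helper53.SU.EUP
import Pool.Agent.helper53.SU.WSM
import Pool.Agent.helper90.SU.EPJ
import Pool.Agent.helper77.SU.GC3
import Pool.Agent.helper71.SU.TAU
import Pool.Agent.helper58.SU.JBG
import Pool.Agent.helper58.SU.CHS
import Pool.Agent.helper58.SU.LSH
import Pool.Agent.helper44.SU.POW
import Pool.Agent.helper58.SU.PWJ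
import Pool.Agent.helper98.SU.PWL
import Pool.Agent.helper20.SU.SMB
import Pool.Agent.helper3.SU.SML
import Pool.Agent.helper3.SU.PRK
import Pool.Agent.helper31.SU.MNK
import Pool.Agent.helper92.SU.FST
import Pool.Agent.helper14.SU.TRI
import Pool.Agent.helper1.SU.CSW
import Pool.Agent.helper40.SU.IRR
import Pool.Agent.helper14.SU.SQC
import Pool.Agent.helper1.SU.CJP
import Pool.Agent.helper25.SU.CJB
import Pool.Agent.helper14.SU.RHO
import Pool.Agent.helper51.SU.ROT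
import Pool.Agent.helper51.SU.PGD
import Pool.Agent.helper69.SU.SMR
import Pool.Agent.helper29.SU.LRG
import Pool.Agent.helper76.SU.PPB
import Pool.Agent.helper25.SU.DGN
import Pool.Agent.helper41.SU.SCL
import Pool.Agent.helper92.SU.SEM
import Pool.Agent.helper18.SU.PRO
import Pool.Agent.helper1.SU.COV
import Pool.Agent.helper77.SU.FIN
import Pool.Agent.helper53.SU.TB1
import Pool.Agent.helper52.SU.TPD
import Pool.Agent.helper41.SU.TRD
import Pool.Agent.helper48.SU.TT1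
import Pool.Agent.helper24.SU.TQR
import Pool.Agent.helper87.SU.TN2
import Pool.Agent.helper60.SU.TN1
import Pool.Agent.helper24.SU.T3S

/-!
# Project su: assembly of the rows
-/

set_option autoImplicit false

namespace Pool.Agent.SU

theorem a_ADM : ADM_stmt := ADM
theorem a_LO2 : LO2_stmt := LO2
theorem a_LOP : LOP_stmt := LOP
theorem a_LOQ : LOQ_stmt := LOQ
theorem a_LOC : LOC_stmt := LOC a_LO2 a_LOP a_LOQ
theorem a_QSM : QSM_stmt := QSM
theorem a_TTT : TTT_stmt := TTT a_QSM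
theorem a_SPL : SPL_stmt := SPL
theorem a_SQA : SQA_stmt := SQA
theorem a_NRC : NRC_stmt := NRC
theorem a_CNT : CNT_stmt := CNT
theorem a_SQB : SQB_stmt := SQB a_NRC a_CNT
theorem a_HAS : HAS_stmt := HAS a_TTT a_SPL a_SQA a_SQB
theorem a_QRT : QRT_stmt := QRT a_QSM a_HAS
theorem a_CR2 : CR2_stmt := CR2
theorem a_FUL : FUL_stmt := FUL a_QRT a_CR2
theorem a_PER : PER_stmt := PER
theorem a_OMG : OMG_stmt := OMG
theorem a_GMR : GMR_stmt := GMR a_OMG
theorem a_DUA : DUA_stmt := DUA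
theorem a_DLS : DLS_stmt := DLS a_FUL a_PER a_GMR a_DUA
theorem a_RT1 : RT1_stmt := RT1
theorem a_RTD : RTD_stmt := RTD a_RT1
theorem a_LIN : LIN_stmt := LIN
theorem a_DCO : DCO_stmt := DCO
theorem a_NPR : NPR_stmt := NPR a_DCO
theorem a_GAP : GAP_stmt := GAP
theorem a_SQF : SQF_stmt := SQF a_RT1 a_LIN a_DCO a_GAP
theorem a_SMO : SMO_stmt := SMO a_RT1 a_LIN a_DCO
theorem a_MLT : MLT_stmt := MLT a_RT1 a_DCO
theorem a_FMC : FMC_stmt := FMC a_DCO a_NPR a_SQF a_SMO a_MLT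
theorem a_FAM : FAM_stmt := FAM a_DLS a_DCO a_RTD a_LIN a_FMC
theorem a_EUP : EUP_stmt := EUP
theorem a_WSM : WSM_stmt := WSM a_EUP
theorem a_EPJ : EPJ_stmt := EPJ a_EUP
theorem a_GC3 : GC3_stmt := GC3
theorem a_TAU : TAU_stmt := TAU a_OMG
theorem a_JBG : JBG_stmt := JBG a_EPJ a_TAU
theorem a_CHS : CHS_stmt := CHS
theorem a_LSH : LSH_stmt := LSH a_DUA a_CHS
theorem a_POW : POW_stmt := POW a_DUA a_LSH
theorem a_PWJ : PWJ_stmt := PWJ a_GC3 a_POW a_TAU
theorem a_PWL : PWL_stmt := PWL a_PWJ a_WSM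
theorem a_SMB : SMB_stmt := SMB a_GC3
theorem a_SML : SML_stmt := SML a_GC3 a_WSM a_SMB
theorem a_PRK : PRK_stmt := PRK a_JBG a_PWL a_SML
theorem a_MNK : MNK_stmt := MNK
theorem a_FST : FST_stmt := FST
theorem a_TRI : TRI_stmt := TRI
theorem a_CSW : CSW_stmt := CSW
theorem a_IRR : IRR_stmt := IRR
theorem a_SQC : SQC_stmt := SQC
theorem a_CJP : CJP_stmt := CJP a_SQC
theorem a_CJB : CJB_stmt := CJB a_CJP
theorem a_RHO : RHO_stmt := RHO
theorem a_ROT : ROT_stmt := ROT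
theorem a_PGD : PGD_stmt := PGD a_IRR a_RHO a_ROT
theorem a_SMR : SMR_stmt := SMR a_CHS
theorem a_LRG : LRG_stmt := LRG a_TAU a_WSM a_CJB a_IRR
theorem a_PPB : PPB_stmt := PPB a_PGD a_SMR a_LRG a_CJB a_RHO a_TAU
theorem a_DGN : DGN_stmt := DGN a_FST a_TAU
theorem a_SCL : SCL_stmt := SCL a_PRK a_MNK
theorem a_SEM : SEM_stmt := SEM a_FST a_TRI a_CSW a_PPB a_DGN a_SCL
theorem a_PRO : PRO_stmt := PRO a_ADM a_DCO a_FAM a_SEM
theorem a_COV : COV_stmt := COV
theorem a_FIN : FIN_stmt := FIN a_LOC a_PRO a_COV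
theorem a_TB1 : TB1_stmt := TB1
theorem a_TPD : TPD_stmt := TPD
theorem a_TRD : TRD_stmt := TRD a_TB1
theorem a_TT1 : TT1_stmt := TT1 a_TB1 a_TRD
theorem a_TQR : TQR_stmt := TQR a_TPD a_TT1
theorem a_TN2 : TN2_stmt := TN2 a_TQR
theorem a_TN1 : TN1_stmt := TN1 a_TQR
theorem a_T3S : T3S_stmt := T3S a_TN1 a_TN2

end Pool.Agent.SU
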