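import Mathlib

/-!
# Project su (MP_c66272_nt, Sun's 1680 conjecture): definitions

THEOREM. The set of the numbers which are not admissible in the sense of Sun's 1680 question has density `0`:
`#{n ≤ X : n = 7 mod 8, n not admissible} = o(X)` (the other residue classes reduce to this one).

IDEA. `(x, y, z) = (m u², u², k (m² u + 420 k))` has `x⁴ + 1680 y³ z = (u³ (m² u + 840 k))²`, so every number
`Df m u k * s² + w²` is admissible, `Df m u k = (m² + 1) u⁴ + (k (m² u + 420 k))²`. Part I: the values `D` of the binary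
quartic form `Df m` in a progression modulo `64 q` form a good family `Fam` (`c K²` squarefree values of size `K⁴`,
large sieve inequality `dls` from the Weil bound). Part II: the second moment of the number of representations
`n = D s² + 4 w²`, `D` in `log T` such families.
-/

set_option autoImplicit false

open Finset

namespace Pool.Agent.SU

/-- `n` is admissible -/
def Adm (n : ℕ) : Prop :=
  ∃ x y z w : ℕ, n = x ^ 2 + y ^ 2 + z ^ 2 + w ^ 2 ∧ IsSquare (x ^ 4 + 1680 * y ^ 3 * z)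

/-- the quartic form -/
def Df (m u k : ℕ) : ℕ := (m ^ 2 + 1) * u ^ 4 + (k * (m ^ 2 * u + 420 * k)) ^ 2

/-- the constant `c` in `1680² D = v⁴ - 2 m⁴ u² v² + c u⁴`, `v = m² u + 840 k` -/
def cf (m : ℕ) : ℕ := m ^ 8 + 1680 ^ 2 * (m ^ 2 + 1)

/-- the data: a modulus `q` and a class `(u₀, k₀)` modulo `64 q`, all odd; `2 q` is divisible by all primes `≤ Z` and by all
primes dividing `(m² + 1) c`; `Df m u₀ k₀` is prime to `q` -/
structure Dat (Z m q u₀ k₀ : ℕ) : Prop where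
  m_odd : Odd m
  q_odd : Odd q
  u_odd : Odd u₀
  k_odd : Odd k₀
  u_le : u₀ ≤ 64 * q
  k_le : k₀ ≤ 64 * q
  small : ∀ p : ℕ, p.Prime → p ≤ Z → p ∣ 2 * q
  bad : ∀ p : ℕ, p.Prime → p ∣ (m ^ 2 + 1) * cf m → p ∣ 2 * q
  cop : (Df m u₀ k₀).Coprime q

/-- the box of the pairs `(u, k) = (u₀ + 64 q i, k₀ + 64 q j)`, `K ≤ i, j < 2 K` -/
def Bx (q u₀ k₀ K : ℕ) : Finset (ℕ × ℕ) :=
  (Ico K (2 * K) ×ˢ Ico K (2 * K)).image (fun x => (u₀ + 64 * q * x.1, k₀ + 64 * q * x.2))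

/-- primitive pairs of the box -/
def Px (q u₀ k₀ K : ℕ) : Finset (ℕ × ℕ) := (Bx q u₀ k₀ K).filter (fun x => x.1.Coprime x.2)

/-- number of prime factors -/
def om (n : ℕ) : ℕ := n.primeFactors.card

/-- the product of the odd primes `≤ Z` -/
def q0 (Z : ℕ) : ℕ := ∏ p ∈ (Icc 3 Z).filter Nat.Prime, p

/-- a good family at scale `K` (sizes `Γ K⁴ ≤ D ≤ 16 Γ K⁴`) -/
structure Fam (c₀ C₀ : ℝ) (q D₀ Γ K : ℕ) (S : Finset ℕ) : Prop where
  card_ge : c₀ * (K : ℝ) ^ 2 ≤ S.card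
  card_le : S.card ≤ K ^ 2
  sqf : ∀ D ∈ S, Squarefree D
  cls : ∀ D ∈ S, D % (64 * q) = D₀ % (64 * q)
  lo : ∀ D ∈ S, Γ * K ^ 4 ≤ D
  hi : ∀ D ∈ S, D ≤ 16 * Γ * K ^ 4
  dvd : ∀ d : ℕ, Squarefree d → d.Coprime (2 * q) →
    ((S.filter (fun D => d ∣ D)).card : ℝ) ≤ 4 ^ (om d) * ((K : ℝ) ^ 2 / d + K)
  dls : ∀ (G : ℕ) (c : ℕ → ℝ), 1 ≤ G → G ^ 4 ≤ K →
    ∑ g ∈ (Ioc G (2 * G)).filter (fun g => Squarefree g ∧ g.Coprime (2 * q)),
      (∑ D ∈ S, c D * (jacobiSym D g : ℝ)) ^ 2 ≤ C₀ * (K : ℝ) ^ 2 * (G : ℝ) ^ (1 / 10 : ℝ) * ∑ D ∈ S, c D ^ 2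

end Pool.Agent.SU
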