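import Pool.Agent.helper40.SU.SpecC

/-!
# Project su: from `n = 7 mod 8` to all `n = 4^a (8 b + 7)`
-/

set_option autoImplicit false

open Finset Filter

namespace Pool.Agent.SU

theorem ALL_adm (a m : ℕ) (h : Adm m) : Adm (4 ^ a * m) := by
  obtain ⟨x, y, z, w, h1, r, hr⟩ := h
  have e4 : (4 : ℕ) ^ a = (2 ^ a) ^ 2 := by
    rw [← pow_mul, mul_comm, pow_mul]; norm_num
  refine ⟨2 ^ a * x, 2 ^ a * y, 2 ^ a * z, 2 ^ a * w, ?_, (2 ^ a) ^ 2 * r, ?_⟩
  · rw [h1, e4]; ring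
  · have : (2 ^ a * x) ^ 4 + 1680 * (2 ^ a * y) ^ 3 * (2 ^ a * z)
        = (2 ^ a) ^ 4 * (x ^ 4 + 1680 * y ^ 3 * z) := by ring
    rw [this, hr]; ring

open Classical in
theorem ALL_count (X A : ℕ) :
    (((range X).filter (fun n => (∃ a b : ℕ, n = 4 ^ a * (8 * b + 7)) ∧ ¬ Adm n)).card : ℝ) ≤
      ∑ a ∈ range A, (((range (X / 4 ^ a + 1)).filter (fun n => n % 8 = 7 ∧ ¬ Adm n)).card : ℝ)
        + ((X : ℝ) / 4 ^ A + 1) := by
  have hsub : (range X).filter (fun n => (∃ a b : ℕ, n = 4 ^ a * (8 * b + 7)) ∧ ¬ Adm n) ⊆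
      ((range A).biUnion (fun a => ((range (X / 4 ^ a + 1)).filter (fun n => n % 8 = 7 ∧ ¬ Adm n)).image
        (fun m => 4 ^ a * m))) ∪ (range (X / 4 ^ A + 1)).image (fun m => 4 ^ A * m) := by
    intro n hn
    rw [mem_filter, mem_range] at hn
    obtain ⟨hnX, ⟨a, b, hab⟩, hna⟩ := hn
    rw [mem_union]
    by_cases haA : a < A
    · left
      rw [mem_biUnion]
      refine ⟨a, mem_range.2 haA, ?_⟩
      rw [mem_image]
      refine ⟨8 * b + 7, ?_, hab.symm⟩
      rw [mem_filter, mem_range]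
      refine ⟨?_, by omega, ?_⟩
      · have : 8 * b + 7 ≤ X / 4 ^ a := by
          rw [Nat.le_div_iff_mul_le (by positivity)]
          rw [mul_comm, ← hab]; omega
        omega
      · intro hadm
        exact hna (hab ▸ ALL_adm a _ hadm)
    · right
      rw [mem_image]
      obtain ⟨c, hc⟩ : ∃ c, a = A + c := ⟨a - A, by omega⟩
      refine ⟨4 ^ c * (8 * b + 7), ?_, ?_⟩
      · rw [mem_range]
        have : 4 ^ c * (8 * b + 7) ≤ X / 4 ^ A := by
          rw [Nat.le_div_iff_mul_le (by positivity)]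
          have : 4 ^ c * (8 * b + 7) * 4 ^ A = n := by
            rw [hab, hc, pow_add]; ring
          omega
        omega
      · rw [hab, hc, pow_add]; ring
  have h1 := card_le_card hsub
  have h2 : (((range A).biUnion (fun a => ((range (X / 4 ^ a + 1)).filter (fun n => n % 8 = 7 ∧ ¬ Adm n)).image
        (fun m => 4 ^ a * m))) ∪ (range (X / 4 ^ A + 1)).image (fun m => 4 ^ A * m)).card ≤
      ∑ a ∈ range A, ((range (X / 4 ^ a + 1)).filter (fun n => n % 8 = 7 ∧ ¬ Adm n)).card + (X / 4 ^ A + 1) := by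
    refine le_trans (card_union_le _ _) (add_le_add ?_ ?_)
    · refine le_trans card_biUnion_le (sum_le_sum fun a _ => card_image_le)
    · refine le_trans card_image_le ?_
      rw [card_range]
  have h3 : (((range X).filter (fun n => (∃ a b : ℕ, n = 4 ^ a * (8 * b + 7)) ∧ ¬ Adm n)).card : ℝ) ≤
      ((∑ a ∈ range A, ((range (X / 4 ^ a + 1)).filter (fun n => n % 8 = 7 ∧ ¬ Adm n)).card + (X / 4 ^ A + 1) : ℕ) : ℝ) := by
    exact_mod_cast le_trans h1 h2
  refine le_trans h3 ?_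
  push_cast
  have h4 : ((X / 4 ^ A : ℕ) : ℝ) ≤ (X : ℝ) / 4 ^ A := by
    have := @Nat.cast_div_le ℝ _ _ _ X (4 ^ A)
    push_cast at this
    exact this
  linarith

open Classical in
/-- the non-admissible numbers of the form `4^a (8 b + 7)` have density `0` -/
theorem ALL (hFIN : FIN_stmt) :
    Tendsto (fun X : ℕ => (((range X).filter (fun n => (∃ a b : ℕ, n = 4 ^ a * (8 * b + 7)) ∧ ¬ Adm n)).card : ℝ) / X)
      atTop (nhds 0) := by
  unfold FIN_stmt at hFIN
  set c : ℕ → ℝ := fun X => (((range X).filter (fun n => n % 8 = 7 ∧ ¬ Adm n)).card : ℝ) with hc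
  rw [Metric.tendsto_atTop]
  intro ε hε
  rw [Metric.tendsto_atTop] at hFIN
  obtain ⟨X₀, hX₀⟩ := hFIN (ε / 8) (by positivity)
  have hcb : ∀ X : ℕ, c X ≤ ε / 8 * X + X₀ := by
    intro X
    by_cases hX : X₀ ≤ X
    · have h := hX₀ X hX
      rw [Real.dist_eq, sub_zero] at h
      have hnn : 0 ≤ c X := Nat.cast_nonneg _
      by_cases hX0 : X = 0
      · subst hX0
        have : c 0 = 0 := by simp [hc]
        rw [this]; push_cast; positivity
      · have hXpos : (0 : ℝ) < X := by exact_mod_cast Nat.pos_of_ne_zero hX0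
        have h2 : c X / X < ε / 8 := lt_of_le_of_lt (le_abs_self _) h
        rw [div_lt_iff₀ hXpos] at h2
        have : (0 : ℝ) ≤ X₀ := Nat.cast_nonneg _
        linarith
    · have h1 : c X ≤ X := by
        have : ((range X).filter (fun n => n % 8 = 7 ∧ ¬ Adm n)).card ≤ X := by
          refine le_trans (card_filter_le _ _) ?_
          rw [card_range]
        simp only [hc]
        exact_mod_cast this
      have h2 : (X : ℝ) ≤ X₀ := by exact_mod_cast (by omega : X ≤ X₀)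
      have : (0 : ℝ) ≤ ε / 8 * X := by positivity
      linarith
  obtain ⟨A, hA⟩ := exists_pow_lt_of_lt_one (show (0 : ℝ) < ε / 8 by positivity) (show (1 / 4 : ℝ) < 1 by norm_num)
  have hev : ∀ᶠ X : ℕ in atTop, (A * (ε / 8 + X₀) + 1 : ℝ) * (8 / ε) ≤ X := by
    exact tendsto_natCast_atTop_atTop.eventually_ge_atTop _
  obtain ⟨X₁, hX₁⟩ := Filter.eventually_atTop.1 hev
  refine ⟨max X₁ 1, fun X hX => ?_⟩
  have hXpos : (0 : ℝ) < X := by
    have : 1 ≤ X := le_trans (le_max_right _ _) hX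
    exact_mod_cast this
  rw [Real.dist_eq, sub_zero, abs_of_nonneg (by positivity), div_lt_iff₀ hXpos]
  have h1 := ALL_count X A
  have h2 : ∑ a ∈ range A, (((range (X / 4 ^ a + 1)).filter (fun n => n % 8 = 7 ∧ ¬ Adm n)).card : ℝ) ≤
      ∑ a ∈ range A, (ε / 8 * (X * (1 / 4 : ℝ) ^ a) + (ε / 8 + X₀)) := by
    apply sum_le_sum
    intro a _
    have h := hcb (X / 4 ^ a + 1)
    have h4 : ((X / 4 ^ a : ℕ) : ℝ) ≤ (X : ℝ) * (1 / 4 : ℝ) ^ a := by
      have := @Nat.cast_div_le ℝ _ _ _ X (4 ^ a)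
      push_cast at this
      rw [one_div, inv_pow, ← div_eq_mul_inv]
      exact this
    have h5 : ε / 8 * ((X / 4 ^ a + 1 : ℕ) : ℝ) ≤ ε / 8 * (X * (1 / 4 : ℝ) ^ a + 1) := by
      apply mul_le_mul_of_nonneg_left _ (by positivity)
      push_cast
      push_cast at h4
      linarith
    have h6 : c (X / 4 ^ a + 1) ≤ ε / 8 * (X * (1 / 4 : ℝ) ^ a) + (ε / 8 + X₀) := by linarith
    exact h6
  have h3 : ∑ a ∈ range A, (ε / 8 * (X * (1 / 4 : ℝ) ^ a) + (ε / 8 + X₀)) ≤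
      ε / 8 * X * 2 + A * (ε / 8 + X₀) := by
    rw [sum_add_distrib, sum_const, card_range, nsmul_eq_mul]
    have hg : ∑ a ∈ range A, (1 / 4 : ℝ) ^ a ≤ 2 := by
      rw [geom_sum_eq (by norm_num : (1 / 4 : ℝ) ≠ 1) A]
      have h0 : (0 : ℝ) < (1 / 4 : ℝ) ^ A := by positivity
      rw [div_le_iff_of_neg (by norm_num)]
      linarith
    have : ∑ a ∈ range A, ε / 8 * ((X : ℝ) * (1 / 4 : ℝ) ^ a) = ε / 8 * X * ∑ a ∈ range A, (1 / 4 : ℝ) ^ a := by
      rw [mul_sum]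
      apply sum_congr rfl
      intro a _; ring
    rw [this]
    have : ε / 8 * X * ∑ a ∈ range A, (1 / 4 : ℝ) ^ a ≤ ε / 8 * X * 2 :=
      mul_le_mul_of_nonneg_left hg (by positivity)
    linarith
  have h7 : (X : ℝ) / 4 ^ A ≤ ε / 8 * X := by
    have : (X : ℝ) / 4 ^ A = X * (1 / 4 : ℝ) ^ A := by
      rw [one_div, inv_pow, ← div_eq_mul_inv]
    rw [this]
    nlinarith
  have h8 : (A * (ε / 8 + X₀) + 1 : ℝ) ≤ ε / 8 * X := by
    have h := hX₁ X (le_trans (le_max_left _ _) hX)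
    have h9 : (A * (ε / 8 + X₀) + 1 : ℝ) * (8 / ε) * (ε / 8) ≤ X * (ε / 8) :=
      mul_le_mul_of_nonneg_right h (by positivity)
    have h10 : (A * (ε / 8 + X₀) + 1 : ℝ) * (8 / ε) * (ε / 8) = A * (ε / 8 + X₀) + 1 := by
      field_simp
    rw [h10] at h9
    linarith
  have hfin : (((range X).filter (fun n => (∃ a b : ℕ, n = 4 ^ a * (8 * b + 7)) ∧ ¬ Adm n)).card : ℝ) ≤
      ε / 8 * X * 2 + A * (ε / 8 + X₀) + (ε / 8 * X + 1) := by linarith
  have : (0 : ℝ) < ε * X := by positivity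
  linarith

end Pool.Agent.SU
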