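import Pool.Agent.helper40.SU.Defs

/-!
# Project su (MP_c66272_nt), Part I: local solvability, character sums, the families
-/

set_option autoImplicit false

open Finset

namespace Pool.Agent.SU

/-- **ADM** (15 lines). Proof. `x = s m u²`, `y = s u²`, `z = s k (m² u + 420 k)`: `x² + y² + z² = s² Df m u k` and
`x⁴ + 1680 y³ z = (s² u³ (m² u + 840 k))²` (`840² = 1680 * 420`). -/
def ADM_stmt : Prop := ∀ m u k s w : ℕ, Adm (Df m u k * s ^ 2 + w ^ 2)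

/-- **LO2** (15 lines). Proof. Everything depends on `D mod 32`, `n mod 32`; `s ∈ {1, 3, 5, 7}` (squares `1, 9, 25, 17` modulo `32`); `decide` or `interval_cases` /
`omega`. -/
def LO2_stmt : Prop := ∀ D n : ℕ, D % 8 = 3 → n % 8 = 7 → ∃ s : ℕ, Odd s ∧ (D * s ^ 2 + 4) % 32 = n % 32

/-- **LOP** (45 lines). Proof. In `ZMod p` (`2` is invertible). `n ≠ 0`: `m = 0`; `ZMod.sq_add_sq`: `a² + b² = n`, one of `a, b` is not `0`, say `b`; `s = a`, `w = b / 2`.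
`n = 0`: `ZMod.sq_add_sq` for `-1`: `a² + b² = -1`, one of them, say `b`, is not `0`; `m = a`, so `m² + 1 = - b² ≠ 0`; `s = 1`, `w = b / 2`. (Representatives by `ZMod.val`.) -/
def LOP_stmt : Prop := ∀ p : ℕ, p.Prime → p ≠ 2 → ∀ n : ℕ, ∃ m : ℕ, ¬ p ∣ m ^ 2 + 1 ∧
  ∃ s w : ℕ, ¬ p ∣ w ∧ (m ^ 2 + 1) * s ^ 2 + 4 * w ^ 2 ≡ n [MOD p]

/-- **LOQ** (60 lines). Proof. In `ZMod p`. Case `m² = -1`: `k = 1`, `u = 419`: `Df = (m² 419 + 420)² = 1`. `n ≠ 0`: `a² + b² = n` with `b ≠ 0` (`ZMod.sq_add_sq`, swap), `s = a`, `w = b / 2`;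
`n = 0`: `s = 1`, `w = m / 2` (`m ≠ 0`). Case `m² ≠ -1`: then `c = 0`, i.e. `- (m² + 1) = h²`, `h = m⁴ / 1680`, `h ≠ 0`; `u = 1, k = 0`: `Df = m² + 1 = - h²`. For `n` choose `t ≠ 0` with
`t² ≠ - n` (at most `2` bad values, `p - 1 > 2`); `s, w` with `2 w + h s = t`, `2 w - h s = n / t`: `4 w = t + n / t ≠ 0` and `4 w² - h² s² = n`. -/
def LOQ_stmt : Prop := ∀ p m : ℕ, p.Prime → 7 < p → p ∣ (m ^ 2 + 1) * cf m → ∃ u k : ℕ, ¬ p ∣ Df m u k ∧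
  ∀ n : ℕ, ∃ s w : ℕ, ¬ p ∣ w ∧ Df m u k * s ^ 2 + 4 * w ^ 2 ≡ n [MOD p]

/-- **LOC** (100 lines). uses: LO2, LOP, LOQ. Proof. `m`: odd and `= m_p` modulo every odd prime `p ≤ Z`, `m_p` from LOP for `n = r` (Chinese remainder: `Nat.chineseRemainderOfFinset` or
`Ideal`/`ZMod` versions). `q` = the product of the odd primes `p` which are `≤ Z` or divide `(m² + 1) cf m` (squarefree, odd, divisible by `q0 Z`). `u₀, k₀`: odd, `≤ 64 q` (reduce modulo `64 q`; they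
are `≥ 1` since odd), `= (1, 0)` modulo the `p ≤ Z`, `= (u_p, k_p)` of LOQ modulo the other `p ∣ q` (`p > Z ≥ 7`). `Df m u₀ k₀ = m² + 1` modulo `p ≤ Z`. It is `3` modulo `8` (everything odd: `m² + 1 = 2`, `u⁴ = 1`,
odd square `1` modulo `8`). For `n`: `n = r` modulo `8` and modulo the `p ≤ Z`. `s₀ mod 32` from LO2, `s₀, w₀ mod p` from LOP / LOQ, `w₀ = 1` modulo `4` (`4 w₀² = 4` modulo `32`); Chinese remainder modulo `32` (`4`) and the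
primes of `q`; the congruence modulo `32 q` follows from those modulo `32` and the primes `p ∣ q` (`q` squarefree, odd). -/
def LOC_stmt : Prop := ∀ Z r : ℕ, 7 ≤ Z → r % 8 = 7 → ∃ m q u₀ k₀ : ℕ, Dat Z m q u₀ k₀ ∧ q0 Z ∣ q ∧
  ∀ n : ℕ, n ≡ r [MOD 8 * q0 Z] → ∃ s₀ w₀ : ℕ, w₀.Coprime (2 * q) ∧ Df m u₀ k₀ * s₀ ^ 2 + 4 * w₀ ^ 2 ≡ n [MOD 32 * q]

/-! ## Character sums -/

/-- **QSM** (50 lines). Proof. `4 a (a x² + b x + c) = (2 a x + b)² - Δ`, `χ(4 a) = χ(a)`, `x ↦ 2 a x + b` is a bijection: the sum is `χ(a) ∑_y χ(y² - Δ)`. `Δ = 0`: `card - 1`. `Δ ≠ 0`: `∑_y (1 + χ(y² - Δ))` is the number of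
`(y, z)` with `z² = y² - Δ` (`quadraticChar_card_sqrts`), i.e. `(y - z) (y + z) = Δ`: `card - 1` pairs (bijection with the units). -/
def QSM_stmt : Prop := ∀ (F : Type) [Field F] [Fintype F] [DecidableEq F], ringChar F ≠ 2 → ∀ a b c : F, a ≠ 0 →
  (b ^ 2 - 4 * a * c ≠ 0 → ∑ x : F, quadraticChar F (a * x ^ 2 + b * x + c) = - quadraticChar F a) ∧
  (b ^ 2 - 4 * a * c = 0 → ∑ x : F, quadraticChar F (a * x ^ 2 + b * x + c) = ((Fintype.card F : ℤ) - 1) * quadraticChar F a)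

/-- the cubic sum -/
def S3 (F : Type) [Field F] [Fintype F] [DecidableEq F] (b c : F) : ℤ := ∑ x : F, quadraticChar F (x * (x ^ 2 + b * x + c))

/-- `x (x² + b x + c) y (y² + b y + c)` in terms of `s = x + y`, `t = x y` -/
def Ph {F : Type} [Field F] (b c s t : F) : F :=
  t * (c * s ^ 2 + b * (t + c) * s + (t ^ 2 - 2 * c * t + b ^ 2 * t + c ^ 2))

/-- **TTT** (50 lines). uses: QSM. Proof. `t = 0`: the inner sum is `0`. `t ≠ 0`: QSM with `(t c, t b (t + c), t (t² - 2 c t + b² t + c²))`, discriminant `t² (t - c)² (b² - 4 c)`. `t = c`: `(card - 1) χ(c²) = card - 1`. `t ≠ 0, c`: `- χ(t c)`.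
Total `card - 1 - (∑_t χ(t c) - χ(c²)) = card` (`quadraticChar_sum_zero`). -/
def TTT_stmt : Prop := ∀ (F : Type) [Field F] [Fintype F] [DecidableEq F], ringChar F ≠ 2 → ∀ b c : F, c ≠ 0 → b ^ 2 - 4 * c ≠ 0 →
  ∑ t : F, ∑ s : F, quadraticChar F (Ph b c s t) = Fintype.card F

/-- **SPL** (40 lines). Proof. `x² + b x + c = (x - r) (x - r')`, `r' = - b - r`, `r r' = c ≠ 0`. `weil_finset` of `Pool.Agent.helper82.Weil.M` with `χ = (quadraticChar F).ringHomComp (Int.castRingHom ℂ)` (`≠ 1`, `quadraticChar_ne_one`), index set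
`Bool` or `Fin 2`, exponents `1`. (If `r = r'` also fine.) -/
def SPL_stmt : Prop := ∀ (F : Type) [Field F] [Fintype F] [DecidableEq F], ringChar F ≠ 2 → ∀ b c r : F, c ≠ 0 → r ^ 2 + b * r + c = 0 →
  |((S3 F b c : ℤ) : ℝ)| ≤ 2 * √(Fintype.card F : ℝ)

/-- **SQA** (50 lines). Proof. `S3² = ∑_(x, y) χ(x (x² + b x + c) y (y² + b y + c)) = ∑_(x, y) χ(Ph b c (x + y) (x y))` (`ring`); group by `(s, t) = (x + y, x y)` (`sum_fiberwise` ..): the number of `(x, y)` with `x + y = s, x y = t` is the number of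
`x` with `x² - s x + t = 0`, i.e. `(2 x - s)² = s² - 4 t`: `1 + χ(s² - 4 t)` (`quadraticChar_card_sqrts`). -/
def SQA_stmt : Prop := ∀ (F : Type) [Field F] [Fintype F] [DecidableEq F], ringChar F ≠ 2 → ∀ b c : F,
  S3 F b c ^ 2 = ∑ t : F, ∑ s : F, (1 + quadraticChar F (s ^ 2 - 4 * t)) * quadraticChar F (Ph b c s t)

/-- **NRC** (50 lines). Proof. `n` = the norm: `FiniteField.algebraMap_norm_eq_pow` or: `(z^(p+1))^p = z^(p²+p) = z^(1+p)` and the `y` with `y^p = y` are the image of `ZMod p` (at most `p` roots). `χ_K(z) = z^((p²-1)/2)` in `K`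
(`quadraticChar_eq_pow_of_char_ne_two'`), `= (z^(p+1))^((p-1)/2) = n^((p-1)/2) = χ_p(n)` in `K`; values in `{0, 1, -1}` and `1 ≠ -1` in `K`. -/
def NRC_stmt : Prop := ∀ (p : ℕ) [Fact p.Prime] (K : Type) [Field K] [Fintype K] [DecidableEq K] [Algebra (ZMod p) K],
  p ≠ 2 → Fintype.card K = p ^ 2 → ∀ z : K, ∃ n : ZMod p, algebraMap (ZMod p) K n = z ^ (p + 1) ∧
    quadraticChar K z = quadraticChar (ZMod p) n

/-- **CNT** (90 lines). Proof. `Δ = s² - 4 t`. Such an `x` satisfies `x² - s x + t = 0`, so `(2 x - s)² = Δ`. `Δ = 0`: only `x = s / 2`, which works (`x^p = x`). `Δ = δ² ≠ 0`, `δ ∈ ZMod p`: `x = (s ± δ) / 2` is in the prime field, `x^p = x`, so `2 x = s`,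
`δ = 0`: none. `Δ` not a square in `ZMod p`: `Δ^((p²-1)/2) = (Δ^(p-1))^((p+1)/2) = 1`, so `Δ = δ²` in `K` (`FiniteField.isSquare_iff`), `δ^p = ± δ` since `δ^(2p) = Δ^p = Δ`; `δ^p = δ` would give `δ ∈ ZMod p` (at most `p` solutions of `y^p = y`), so
`δ^p = - δ`; `x = (s ± δ) / 2`: `x + x^p = s`, `x x^p = (s² - Δ) / 4 = t`: exactly two. -/
def CNT_stmt : Prop := ∀ (p : ℕ) [Fact p.Prime] (K : Type) [Field K] [Fintype K] [DecidableEq K] [Algebra (ZMod p) K],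
  p ≠ 2 → Fintype.card K = p ^ 2 → ∀ s t : ZMod p,
    ((univ.filter (fun x : K => x + x ^ p = algebraMap (ZMod p) K s ∧ x ^ (p + 1) = algebraMap (ZMod p) K t)).card : ℤ) =
      1 - quadraticChar (ZMod p) (s ^ 2 - 4 * t)

/-- **SQB** (60 lines). uses: NRC, CNT. Proof. `f(x) = x (x² + b x + c)`, `f(x)^(p+1) = f(x) f(x)^p = f(x) f(x^p) = Ph b c (x + x^p) (x^(p+1))` (Frobenius fixes `b, c`). `x + x^p` and `x^(p+1)` are in the prime field (`y^p = y`; or: trace and norm). By NRC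
`χ_K(f(x)) = χ_p(Ph b c s t)`, `s, t` the elements of `ZMod p` with images `x + x^p`, `x^(p+1)`; group by `(s, t)`, CNT. -/
def SQB_stmt : Prop := ∀ (p : ℕ) [Fact p.Prime] (K : Type) [Field K] [Fintype K] [DecidableEq K] [Algebra (ZMod p) K],
  p ≠ 2 → Fintype.card K = p ^ 2 → ∀ b c : ZMod p,
    S3 K (algebraMap (ZMod p) K b) (algebraMap (ZMod p) K c) =
      ∑ t : ZMod p, ∑ s : ZMod p, (1 - quadraticChar (ZMod p) (s ^ 2 - 4 * t)) * quadraticChar (ZMod p) (Ph b c s t)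

/-- **HAS** (50 lines). uses: TTT, SPL, SQA, SQB. Proof. If `x² + b x + c` has a root in `ZMod p`: SPL. Otherwise `K = GaloisField p 2` (`p²` elements): `Δ = b² - 4 c` is a square in `K` (`Δ^((p²-1)/2) = 1`), so the quadratic has a root in `K` and SPL gives
`|S3 K b c| ≤ 2 p`. SQA + SQB + TTT: `S3(p)² + S3(K) = 2 p`, so `S3(p)² ≤ 4 p`. -/
def HAS_stmt : Prop := ∀ (p : ℕ) [Fact p.Prime], p ≠ 2 → ∀ b c : ZMod p, c ≠ 0 → b ^ 2 - 4 * c ≠ 0 →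
  |((S3 (ZMod p) b c : ℤ) : ℝ)| ≤ 2 * √(p : ℝ)

/-- **QRT** (90 lines). uses: QSM, HAS. Proof. Legendre symbol `= quadraticChar (ZMod p)` (`jacobiSym.legendreSym.to_jacobiSym`), sums over `range p` = sums over `ZMod p`. `x = 0`: `∑_y χ(420² y⁴) = p - 1`. `x ≠ 0`: `y = x t`, `Df m x (x t) = x⁴ Df m 1 t`: together `(p - 1) (1 + ∑_t χ(D(t)))`,
`D(t) = (m² + 1) + (t (m² + 420 t))²`. `v = m² + 840 t` (bijection): `v² - m⁴ = 1680 t (m² + 420 t)`, so `1680² D(t) = v⁴ - 2 m⁴ v² + c`, `c = cf m`. `∑_v χ(v⁴ - 2 m⁴ v² + c) = ∑_x (1 + χ(x)) χ(x² - 2 m⁴ x + c)` (number of `v` with `v² = x`), first part `- 1` by QSM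
(discriminant `4 m⁸ - 4 c = - 4 1680² (m² + 1) ≠ 0`), second part `S3 (-2 m⁴) c`. So the sum is `(p - 1) S3`. HAS. -/
def QRT_stmt : Prop := ∀ p m : ℕ, p.Prime → 7 < p → ¬ p ∣ (m ^ 2 + 1) * cf m →
  |((∑ x ∈ range p, ∑ y ∈ range p, jacobiSym (Df m x y) p : ℤ) : ℝ)| ≤ 2 * p * √(p : ℝ)

/-- **CR2** (50 lines). Proof. `(x, y) ↦ ((x mod r₁, y mod r₁), (x mod r₂, y mod r₂))` is a bijection of the squares (Chinese remainder theorem for `x` and for `y`). -/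
def CR2_stmt : Prop := ∀ (r₁ r₂ : ℕ) (f₁ f₂ : ℕ → ℕ → ℤ), 1 ≤ r₁ → 1 ≤ r₂ → r₁.Coprime r₂ →
  (∀ x y x' y' : ℕ, x ≡ x' [MOD r₁] → y ≡ y' [MOD r₁] → f₁ x y = f₁ x' y') →
  (∀ x y x' y' : ℕ, x ≡ x' [MOD r₂] → y ≡ y' [MOD r₂] → f₂ x y = f₂ x' y') →
  ∑ x ∈ range (r₁ * r₂), ∑ y ∈ range (r₁ * r₂), f₁ x y * f₂ x y =
    (∑ x ∈ range r₁, ∑ y ∈ range r₁, f₁ x y) * (∑ x ∈ range r₂, ∑ y ∈ range r₂, f₂ x y)

/-- `g g' / (g, g')²` -/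
def ee (g g' : ℕ) : ℕ := (g / g.gcd g') * (g' / g.gcd g')

/-- **FUL** (90 lines). uses: QRT, CR2. Proof. `7 < p` and `p ∤ (m² + 1) cf m` for `p ∤ 2 q` (Dat, `Z ≥ 7`). The summand is `∏_(p ∣ lcm) φ_p`, `φ_p = J(Df|p)` if `p` divides exactly one of `g, g'`, `φ_p = J(Df|p)²` if both (`jacobiSym.mul_right`, squarefree). By CR2 and induction
over the set of primes of the lcm (`Finset.induction`, product of distinct primes) the sum is `∏_p ∑_(x, y < p) φ_p`, absolute values `≤ 2 p √p` and `≤ p²`. `e = ee g g'` is the product of the primes of the first kind, `d = gcd` of the second. -/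
def FUL_stmt : Prop := ∀ Z m q u₀ k₀ : ℕ, 7 ≤ Z → Dat Z m q u₀ k₀ → ∀ g g' : ℕ, Squarefree g → Squarefree g' →
  g.Coprime (2 * q) → g'.Coprime (2 * q) →
  |((∑ x ∈ range (g.lcm g'), ∑ y ∈ range (g.lcm g'), jacobiSym (Df m x y) g * jacobiSym (Df m x y) g' : ℤ) : ℝ)| ≤
    2 ^ (om (ee g g')) * ((ee g g' : ℕ) * √((ee g g' : ℕ) : ℝ)) * ((g.gcd g' : ℕ) : ℝ) ^ 2

/-- **PER** (70 lines). Proof. `(i, j) ↦ (u₀ + 64 q i, k₀ + 64 q j)` modulo `r` is a bijection on every square of `r × r` consecutive `(i, j)` (`64 q` invertible modulo `r`), so the sum over such a square is the full sum. `n = K / r` (floor): `n²` disjoint squares in the box, the other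
at most `K² - (n r)² ≤ 2 K r` points (if `r ≤ K`: `n r > K - r`; if `r > K`: `K² ≤ 2 K r`) contribute at most `1` each; `n² ≤ (K / r)²`. -/
def PER_stmt : Prop := ∀ (q r K u₀ k₀ : ℕ) (f : ℕ → ℕ → ℤ), 1 ≤ r → r.Coprime (2 * q) → (∀ x y : ℕ, |f x y| ≤ 1) →
  (∀ x y x' y' : ℕ, x ≡ x' [MOD r] → y ≡ y' [MOD r] → f x y = f x' y') →
  |((∑ i ∈ Ico K (2 * K), ∑ j ∈ Ico K (2 * K), f (u₀ + 64 * q * i) (k₀ + 64 * q * j) : ℤ) : ℝ)| ≤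
    ((K : ℝ) / r) ^ 2 * |((∑ x ∈ range r, ∑ y ∈ range r, f x y : ℤ) : ℝ)| + 2 * K * r

/-- **OMG** (35 lines). Proof. `Z₀ ≥ A^(1/θ)`: every prime factor `p > Z₀` of `n` has `A ≤ p^θ`; `n = ∏ p^(v_p)` (`Nat.factorization_prod_pow_eq_self`), `Ω(n) = ∑ v_p`. -/
def OMG_stmt : Prop := ∀ (θ A : ℝ), 0 < θ → 1 ≤ A → ∃ Z₀ : ℕ, ∀ n : ℕ, n ≠ 0 → (∀ p : ℕ, p.Prime → p ∣ n → Z₀ < p) →
  A ^ (ArithmeticFunction.cardFactors n) ≤ (n : ℝ) ^ θ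

/-- **GMR** (90 lines). uses: OMG. Proof. `Z₀` of OMG for `A = 2, θ = 1/100`. All numbers prime to `2 q` are rough. `e = ee g g'`, `2^(ω(e)) ≤ e^(1/100) ≤ (4 G²)^(1/100) ≤ 2 G^(1/50)`. Sort the `g'` by `d = gcd(g, g') ∣ g`: at most `G/d + 1 ≤ 3 G/d` of them (multiples of `d ≤ 2 G`),
`√e ≥ G/d` (both factors of `e` are `≥ G/d`). So the first part is `≤ ∑_(d ∣ g) (3 G/d) (2 G^(1/50)) (d/G) = 6 G^(1/50) τ(g)`, `τ(g) = 2^(ω(g)) ≤ (2 G)^(1/100) ≤ 2 G^(1/100)`. Second part `≤ 8 / G ≤ 8`. -/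
def GMR_stmt : Prop := ∃ Z₀ : ℕ, ∀ q G : ℕ, (∀ p : ℕ, p.Prime → p ≤ Z₀ → p ∣ 2 * q) → 1 ≤ G →
  ∀ g ∈ Ioc G (2 * G), Squarefree g → g.Coprime (2 * q) →
    ∑ g' ∈ (Ioc G (2 * G)).filter (fun g' => Squarefree g' ∧ g'.Coprime (2 * q)),
      ((2 : ℝ) ^ (om (ee g g')) / √((ee g g' : ℕ) : ℝ) + 8 / (G : ℝ) ^ 2) ≤ 40 * (G : ℝ) ^ (1 / 10 : ℝ)

/-- **DUA** (30 lines). Proof. `b y = ∑_x c x φ x y`: `∑_y b_y² = ∑_x c_x ∑_y b_y φ x y ≤ √(∑ c²) √(∑_x (∑_y b_y φ x y)²) ≤ √(∑ c²) √(Δ ∑ b²)` (Cauchy-Schwarz), so `∑ b² ≤ Δ ∑ c²`. -/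
def DUA_stmt : Prop := ∀ (A B : Finset ℕ) (φ : ℕ → ℕ → ℝ) (Δ : ℝ), 0 ≤ Δ →
  (∀ b : ℕ → ℝ, ∑ x ∈ A, (∑ y ∈ B, b y * φ x y) ^ 2 ≤ Δ * ∑ y ∈ B, b y ^ 2) →
  ∀ c : ℕ → ℝ, ∑ y ∈ B, (∑ x ∈ A, c x * φ x y) ^ 2 ≤ Δ * ∑ x ∈ A, c x ^ 2

/-- **DLS** (100 lines). uses: FUL, PER, GMR, DUA. Proof. `Z₀ ≥ 7` and `≥` that of GMR. DUA with `A = S`, `B` the `g`s, `φ D g = J(D|g)`. For `b`: `∑_(D ∈ S) (∑_g b_g J(D|g))² ≤ ∑_(i, j) (∑_g b_g J(Df(u, k)|g))²` (`S` is contained in the image of the box: choose one preimage of every `D`)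
`= ∑_(g, g') b_g b_g' M(g, g')`, `M = ∑_(i, j) J(Df|g) J(Df|g')`. PER with `r = lcm = d e ≤ 4 G²` and FUL: `|M| ≤ (K / (d e))² 2^(ω(e)) e √e d² + 2 K 4 G² ≤ K² (2^(ω(e)) / √e + 8 / G²) =: μ(g, g')` (`K ≥ G⁴`), symmetric. `|b b'| ≤ (b² + b'²)/2`, so the sum is
`≤ ∑_g b_g² ∑_g' μ(g, g') ≤ 40 K² G^(1/10) ∑ b²` by GMR. -/
def DLS_stmt : Prop := ∃ Z₀ : ℕ, ∀ Z ≥ Z₀, ∀ m q u₀ k₀ : ℕ, Dat Z m q u₀ k₀ → ∀ K G : ℕ, 1 ≤ G → G ^ 4 ≤ K →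
  ∀ S : Finset ℕ, S ⊆ (Bx q u₀ k₀ K).image (fun x => Df m x.1 x.2) → ∀ c : ℕ → ℝ,
    ∑ g ∈ (Ioc G (2 * G)).filter (fun g => Squarefree g ∧ g.Coprime (2 * q)),
      (∑ D ∈ S, c D * (jacobiSym D g : ℝ)) ^ 2 ≤ 40 * (K : ℝ) ^ 2 * (G : ℝ) ^ (1 / 10 : ℝ) * ∑ D ∈ S, c D ^ 2

/-! ## Counting in the box -/

/-- number of roots of `Df m 1 y` modulo `M` -/
def rt (m M : ℕ) : ℕ := ((range M).filter (fun y => M ∣ Df m 1 y)).card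

/-- **RT1** (90 lines). Proof. `p > 7` and `p ∤ (m² + 1) cf m`. Modulo `p` or `p²`: `v = m² + 840 y` (bijection, `840` a unit), `1680² Df m 1 y = g(v) = v⁴ - 2 m⁴ v² + c`. Modulo `p`: a polynomial of degree `4` over a field: at most `4` roots. Modulo `p²`: two roots `v ≠ v'` modulo `p²` with the same
residue modulo `p`: `v' = v + p t`, `g(v') = g(v) + p t g'(v)` modulo `p²`, so `p ∣ t g'(v)`; `g'(v) = 4 v (v² - m⁴)` is not `0` modulo `p`: `v = 0` gives `c = 0`, `v² = m⁴` gives `c - m⁸ = 1680² (m² + 1) = 0`, impossible. So `p ∣ t`: the roots modulo `p²` inject into those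
modulo `p`. (Same argument with `Df m 1 y` itself in place of `g` if preferred.) -/
def RT1_stmt : Prop := ∀ Z m q u₀ k₀ : ℕ, 7 ≤ Z → Dat Z m q u₀ k₀ → ∀ p : ℕ, p.Prime → ¬ p ∣ 2 * q → rt m p ≤ 4 ∧ rt m (p ^ 2) ≤ 4

/-- **RTD** (50 lines). uses: RT1. Proof. Induction on `d` (`Nat.recOnPosPrimePosCoprime` or on the prime factors): `rt m (a b) ≤ rt m a * rt m b` for coprime `a, b` (`y ↦ (y mod a, y mod b)` is injective on `range (a b)`); `rt m p ≤ 4`; `rt m 1 = 1`. -/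
def RTD_stmt : Prop := ∀ Z m q u₀ k₀ : ℕ, 7 ≤ Z → Dat Z m q u₀ k₀ → ∀ d : ℕ, Squarefree d → d.Coprime (2 * q) → rt m d ≤ 4 ^ (om d)

/-- **LIN** (90 lines). Proof. Let `(u, k)` be primitive, `M ∣ Df m u k`. A prime `p ∣ M` is `> 7`; `p ∣ u` would give `p ∣ (420 k²)²`, `p ∣ k`. So `u` is a unit modulo `M`; `y = k / u` modulo `M` is a root: `Df m u k = u⁴ Df m 1 y` modulo `M`. For every `i` (`K` values, `u = u₀ + 64 q i`) and every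
root `y` the condition `k₀ + 64 q j = y u` modulo `M` fixes `j` modulo `M` (`64 q` a unit): at most `K/M + 1` values `j ∈ [K, 2K)`. -/
def LIN_stmt : Prop := ∀ Z m q u₀ k₀ : ℕ, 7 ≤ Z → Dat Z m q u₀ k₀ → ∀ K M : ℕ, 1 ≤ M → M.Coprime (2 * q) →
  (((Px q u₀ k₀ K).filter (fun x => M ∣ Df m x.1 x.2)).card : ℝ) ≤ rt m M * ((K : ℝ) ^ 2 / M + K)

/-- **DCO** (40 lines). Proof. `u = u₀`, `k = k₀` modulo `64 q` for `(u, k)` in the box, so `Df m u k = Df m u₀ k₀` modulo `64 q`; `Df m u₀ k₀` is `3` modulo `8` (`m, u₀, k₀` odd: `(m² + 1) u⁴ = 2` modulo `8`, `(k (m² u + 420 k))²` is an odd square) and prime to `q`. Sizes: `64 q K ≤ u, k ≤ 128 q K`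
(`u₀ ≤ 64 q`, `i ≤ 2 K - 1`), `Df` is monotone and `Df m (λ a) (λ a) = λ⁴ Df m a a`; `Γ = Df m (64 q) (64 q)`. The map of the box is injective (`q ≥ 1` since `q` is odd). -/
def DCO_stmt : Prop := ∀ Z m q u₀ k₀ K : ℕ, Dat Z m q u₀ k₀ → 1 ≤ K → (Bx q u₀ k₀ K).card = K ^ 2 ∧
  ∀ x ∈ Bx q u₀ k₀ K, (Df m x.1 x.2) % (64 * q) = (Df m u₀ k₀) % (64 * q) ∧ (Df m x.1 x.2) % 8 = 3 ∧ (Df m x.1 x.2).Coprime (2 * q) ∧
    64 * q * K ≤ x.1 ∧ 64 * q * K ≤ x.2 ∧ x.1 ≤ 128 * q * K ∧ x.2 ≤ 128 * q * K ∧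
    Df m (64 * q) (64 * q) * K ^ 4 ≤ Df m x.1 x.2 ∧ Df m x.1 x.2 ≤ 16 * Df m (64 * q) (64 * q) * K ^ 4

/-- **NPR** (70 lines). uses: DCO. Proof. If `(u, k)` is not primitive, a prime `p` divides `u`, `k` and `Df m u k`, so `p ∤ 2 q`, `p > Z`, `p ≤ 128 q K`. `#{i : p ∣ u₀ + 64 q i} ≤ K/p + 1`, the same for `j`. `p ≤ K`: at most `(2 K/p)²` pairs, `∑_(p > Z) 4 K²/p² ≤ 4 K²/Z`
(`∑_(n > Z) 1/n² ≤ 1/Z`, `1/n² ≤ 1/(n-1) - 1/n`); `p > K`: at most `4` pairs each, `512 q K` in all. -/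
def NPR_stmt : Prop := ∀ Z m q u₀ k₀ : ℕ, 7 ≤ Z → Dat Z m q u₀ k₀ → ∀ K : ℕ, 1 ≤ K →
  ((Bx q u₀ k₀ K).card : ℝ) - (Px q u₀ k₀ K).card ≤ 8 * (K : ℝ) ^ 2 / Z + 1024 * q * K

/-- **GAP** (50 lines). Proof. Different members of `A` have different slopes `k/u` (primitive, positive) and `M ∣ k u' - k' u ≠ 0`, so `|k/u - k'/u'| ≥ M / (4 B²)`. The map `(u, k) ↦ ⌊(k/u) 4 B²/M⌋` is injective, with values between `⌊2 B²/M⌋` and `⌊8 B²/M⌋`: at most `6 B²/M + 2`. -/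
def GAP_stmt : Prop := ∀ (A : Finset (ℕ × ℕ)) (B M : ℕ) (y : ℤ), 1 ≤ B → 1 ≤ M →
  (∀ x ∈ A, x.1.Coprime x.2 ∧ B ≤ x.1 ∧ x.1 ≤ 2 * B ∧ B ≤ x.2 ∧ x.2 ≤ 2 * B ∧ (M : ℤ) ∣ (x.2 : ℤ) - y * x.1) →
  (A.card : ℝ) ≤ 8 * (B : ℝ) ^ 2 / M + 2

/-- **SQF** (120 lines). uses: RT1, LIN, DCO, GAP. Proof. If `Df` is not squarefree, `p² ∣ Df` for a prime `p`, `p ∤ 2 q` (DCO), so `p > Z`. (a) `p ≤ ε K/8`: LIN (`M = p²`), RT1: at most `4 (K²/p² + K)`; sum `≤ 4 K²/Z + 4 K (ε K/8)`. (b) `p > ε K/8`: `p² ≤ Df ≤ 16 Γ K⁴`, `p ≤ 4 √Γ K²`. As in LIN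
`p ∤ u` and `y = k/u` is one of the at most `4` roots modulo `p²`; for every root GAP with `B = 64 q K`, `M = p²`: at most `8 (64 q K)²/p² + 2 ≤ M₁ = 8 (512 q/ε)² + 2` pairs. Total `≤ 4 M₁ π(4 √Γ K²) ≤ (ε/2) K²` for `K ≥ K₀` since `π(x) ≤ 2 x/log x` for large `x`
(`Chebyshev.eventually_primeCounting_le`). -/
def SQF_stmt : Prop := ∀ Z m q u₀ k₀ : ℕ, 7 ≤ Z → Dat Z m q u₀ k₀ → ∀ ε : ℝ, 0 < ε → ∃ K₀ : ℕ, ∀ K ≥ K₀,
  (((Px q u₀ k₀ K).filter (fun x => ¬ Squarefree (Df m x.1 x.2))).card : ℝ) ≤ (8 / Z + ε) * (K : ℝ) ^ 2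

/-- product of the prime factors `≤ y` -/
def smp (y n : ℕ) : ℕ := ∏ p ∈ n.primeFactors.filter (fun p => p ≤ y), p

/-- **SMO** (100 lines). uses: RT1, LIN, DCO. Proof. `∑_(x ∈ Px) log smp y (Df x) = ∑_(p ≤ y, p ∤ 2q) log p #{x ∈ Px : p ∣ Df x} ≤ ∑_(p ≤ y) log p * 4 (K²/p + K)` (LIN, RT1; primes of `Df` do not divide `2 q`, DCO) `≤ 4 K² (log y + C) + 4 K y log y` (`∑_(p ≤ n) log p/p ≤ log n + C`:
`sum_log_div_le` of `Pool.Agent.Lib.PrimeSums`; `y ≥ 1`, the case `y = 0` is trivial), `≤ 4 K² ((log K)/20 + C) + 4 K^(1.1) log K ≤ (1/4) K² log K` for `K ≥ K₀`. If `N` pairs have `smp > K` then `N log K` is at most this. -/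
def SMO_stmt : Prop := ∀ Z m q u₀ k₀ : ℕ, 7 ≤ Z → Dat Z m q u₀ k₀ → ∃ K₀ : ℕ, ∀ K ≥ K₀, ∀ y : ℕ, y ^ 20 ≤ K →
  (((Px q u₀ k₀ K).filter (fun x => K < smp y (Df m x.1 x.2))).card : ℝ) ≤ (K : ℝ) ^ 2 / 4

/-- **MLT** (120 lines). uses: RT1, DCO. Proof. `K` large in terms of `m, q`. We may assume that some pair has the value `D`; `Γ K⁴ ≤ D ≤ 16 Γ K⁴`. `Dr = D / smp y D ≥ Γ K³` (`D` squarefree: the product of its primes `> y`), prime factors `≥ y + 1 > K^(1/20)`; their number `t` has `K^(t/20) ≤ 16 Γ K⁴ ≤ K^(4.5)`: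
`t ≤ 90`. For `(u, k)` with `Df m u k = D` and `p ∣ Dr`: `p ∤ 2 q`, `p ∤ u` (as in LIN), `k/u` modulo `p` is one of `≤ 4` roots. The map `(u, k) ↦ (k/u mod p)_(p ∣ Dr)` has at most `4^t ≤ 4^90` values, and it is injective: equal values give `Dr ∣ u k' - u' k`, `|u k' - u' k| ≤ (128 q K)² < Γ K³`
for large `K`, so `u k' = u' k`, and both pairs are primitive. -/
def MLT_stmt : Prop := ∀ Z m q u₀ k₀ : ℕ, 7 ≤ Z → Dat Z m q u₀ k₀ → ∃ K₀ : ℕ, ∀ K ≥ K₀, ∀ y : ℕ, y ^ 20 ≤ K → K < (y + 1) ^ 20 →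
  ∀ D : ℕ, Squarefree D → smp y D ≤ K → ((Px q u₀ k₀ K).filter (fun x => Df m x.1 x.2 = D)).card ≤ 4 ^ 90

/-- **FMC** (60 lines). uses: DCO, NPR, SQF, SMO, MLT. Proof. `Z₀ = 1000`. `y` = the largest integer with `y^20 ≤ K`. Good pairs: `x ∈ Px`, `Df` squarefree, `smp y (Df) ≤ K`: at least `K² - 8 K²/Z - 1024 q K - (8/Z + 1/100) K² - K²/4 ≥ K²/2` for large `K`. `S` = their values; every value has at most `4^90` good pairs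
(`Finset.card_le_mul_card_image`): `S.card ≥ (K²/2)/4^90 ≥ K²/4^91`. -/
def FMC_stmt : Prop := ∃ Z₀ : ℕ, ∀ Z ≥ Z₀, ∀ m q u₀ k₀ : ℕ, Dat Z m q u₀ k₀ → ∃ K₀ : ℕ, ∀ K ≥ K₀,
  ∃ S : Finset ℕ, S ⊆ ((Px q u₀ k₀ K).filter (fun x => Squarefree (Df m x.1 x.2))).image (fun x => Df m x.1 x.2) ∧
    (1 / 4 ^ 91 : ℝ) * (K : ℝ) ^ 2 ≤ S.card

/-- **FAM** (60 lines). uses: DLS, DCO, RTD, LIN, FMC. Proof. `S` of FMC. `card_le`: the image of a subset of the box (`K²` elements). `sqf, cls, lo, hi`: DCO. `dvd`: the `D ∈ S` with `d ∣ D` are images of `x ∈ Px` with `d ∣ Df x`: LIN and RTD. `dls`: DLS (`Px ⊆ Bx`). -/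
def FAM_stmt : Prop := ∃ Z₀ : ℕ, ∀ Z ≥ Z₀, ∀ m q u₀ k₀ : ℕ, Dat Z m q u₀ k₀ → ∃ K₀ : ℕ, ∀ K ≥ K₀,
  ∃ S : Finset ℕ, Fam (1 / 4 ^ 91) 40 q (Df m u₀ k₀) (Df m (64 * q) (64 * q)) K S ∧ ∀ D ∈ S, ∃ u k : ℕ, D = Df m u k

end Pool.Agent.SU
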