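import Pool.Agent.helper40.SU.SpecA

/-!
# Project su (MP_c66272_nt), Part II a: weights, powers of the large sieve, the quadratic mean of a family
-/

set_option autoImplicit false

open Finset

namespace Pool.Agent.SU

/-- the weight `2^ω(j) / (rad(j) √j)` -/
noncomputable def wj (j : ℕ) : ℝ := 2 ^ (om j) / ((∏ p ∈ j.primeFactors, (p : ℝ)) * √(j : ℝ))

noncomputable def cD (D : ℕ) : ℝ := 1 / √(D : ℝ)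

noncomputable def gw (D j : ℕ) : ℝ := ((D.gcd j : ℕ) : ℝ) ^ (3 / 4 : ℝ)

noncomputable def Bj (S : Finset ℕ) (j g : ℕ) : ℝ := ∑ D ∈ S, cD D * gw D j * (jacobiSym D g : ℝ)

/-- the numbers of `[1, N]` prime to `2 q` -/
def cop (q N : ℕ) : Finset ℕ := (Icc 1 N).filter (fun n => n.Coprime (2 * q))

/-- `2 q` is divisible by all primes `≤ Z` -/
def Sm (Z q : ℕ) : Prop := ∀ p : ℕ, p.Prime → p ≤ Z → p ∣ 2 * q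

/-- **EUP** (80 lines). Proof. For a finite set `P` of primes: the sum of `F n` over the `n ∈ [1, N]` all of whose prime factors are in `P` is `≤ ∏_(p ∈ P) (1 + ∑_(1 ≤ b ≤ N) F(p^b))`. Induction on `P`: for a new prime `p` write `n = p^b n'`, `p ∤ n'`, `n' ≤ N`, `b ≤ N`
(injective in `n`), `F n = F(p^b) F(n')` (`F(p^0) = 1`). -/
def EUP_stmt : Prop := ∀ F : ℕ → ℝ, (∀ n, 0 ≤ F n) → F 1 = 1 → (∀ a b : ℕ, a.Coprime b → F (a * b) = F a * F b) → ∀ q N : ℕ,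
  ∑ n ∈ cop q N, F n ≤ ∏ p ∈ (cop q N).filter Nat.Prime, (1 + ∑ b ∈ Icc 1 N, F (p ^ b))

/-- **WSM** (100 lines). uses: EUP. Proof. `F j = 10^ω(j) j^(1/10) / (rad(j) √j)` is multiplicative, `F(p^b) = 10 p^(-1) p^(-2b/5)`, `∑_(b ≥ 1) F(p^b) ≤ 20 p^(-7/5)` for `p^(2/5) ≥ 2`. All primes of the product are `> Z`; `∑_(n > Z) n^(-7/5) ≤ (5/2) Z^(-2/5)` (mean value theorem, telescoping).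
So the full sum is `≤ exp(50 Z^(-2/5))`, minus `F 1 = 1`: `≤ 100 Z^(-2/5) ≤ Z^(-1/4)` for `Z ≥ Z₀`. -/
def WSM_stmt : Prop := ∃ Z₀ : ℕ, ∀ Z ≥ Z₀, ∀ q : ℕ, Sm Z q → ∀ N : ℕ,
  ∑ j ∈ (cop q N).filter (fun j => j ≠ 1), wj j * 5 ^ (om j) * (j : ℝ) ^ (1 / 10 : ℝ) ≤ (Z : ℝ) ^ (-(1 / 4) : ℝ)

/-- **EPJ** (110 lines). uses: EUP. Proof. `F j = wj j j^(1/10) gw D j gw D' j` is multiplicative (`gcd(D, a b) = gcd(D, a) gcd(D, b)` for coprime `a, b`), `F(p^b) = 2 p^(-1) p^(-2b/5) p^(3ν/4)`, `ν = [p ∣ D] + [p ∣ D']` (squarefree), so `∑_b F(p^b) ≤ 4 p^(-7/5 + 3ν/4)` (`p^(2/5) ≥ 2`).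
`ν = 0`: the product is `≤ exp(∑_(n > Z) 4 n^(-7/5)) ≤ exp(10 Z^(-2/5)) ≤ 2`. `ν = 1`: `1 + 4 p^(-13/20) ≤ 2` for each, at most `om D + om D'` primes. `ν = 2`: `1 + 4 p^(1/10) ≤ 5 p^(1/10)`, primes of the gcd. -/
def EPJ_stmt : Prop := ∃ Z₀ : ℕ, ∀ Z ≥ Z₀, ∀ q : ℕ, Sm Z q → ∀ D D' N : ℕ, Squarefree D → Squarefree D' →
  ∑ j ∈ cop q N, wj j * (j : ℝ) ^ (1 / 10 : ℝ) * gw D j * gw D' j ≤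
    2 * 2 ^ (om D) * 2 ^ (om D') * 5 ^ (om (D.gcd D')) * ((D.gcd D' : ℕ) : ℝ) ^ (1 / 10 : ℝ)

/-- **GC3** (80 lines). Proof. `d = gcd(D, j)` is squarefree, divides `D` and `rad j`: `gcd^(3/2) ≤ ∑_(d ∣ rad j, d ∣ D) d^(3/2)`. Sum over `D`: `≤ ∑_(d ∣ rad j) d^(3/2) 4^ω(d) (K²/d + K) ≤ 2 K² ∑_(d ∣ rad j) 4^ω(d) √d` (`d ≤ j ≤ K`) `= 2 K² ∏_(p ∣ j) (1 + 4 √p) ≤ 2 K² ∏ 5 √p`
(sum over the divisors of a squarefree number = product; `Finset.prod_one_add` over subsets of the primes). The same with `3/4`: `2 K² ∏ (1 + 4 p^(-1/4)) ≤ 2 K² 2^ω(j)` since `p > 256`. -/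
def GC3_stmt : Prop := ∀ (c₀ C₀ : ℝ) (q D₀ Γ K : ℕ) (S : Finset ℕ), Sm 256 q → Fam c₀ C₀ q D₀ Γ K S → ∀ j : ℕ, 1 ≤ j → j ≤ K → j.Coprime (2 * q) →
  ∑ D ∈ S, gw D j ^ 2 ≤ 2 * (K : ℝ) ^ 2 * 5 ^ (om j) * √(j : ℝ) ∧ ∑ D ∈ S, gw D j ≤ 2 * (K : ℝ) ^ 2 * 2 ^ (om j)

/-- **TAU** (60 lines). uses: OMG. Proof. (i) `n` rough: `τ(n) ≤ 2^Ω(n)`, `om n ≤ Ω(n)`, OMG with `A = 40`. (ii) The divisors `f` of `N` prime to `2 q` divide `N'`, the part of `N` prime to `2 q` (`N = N' N''`, `N''` the product of the `p^(v_p)` with `p ∣ 2 q`); `N'` is rough; (i). -/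
def TAU_stmt : Prop := ∀ θ : ℝ, 0 < θ → ∃ Z₀ : ℕ, ∀ Z ≥ Z₀, ∀ q : ℕ, Sm Z q →
  (∀ n : ℕ, 1 ≤ n → n.Coprime (2 * q) → (n.divisors.card : ℝ) ≤ (n : ℝ) ^ θ ∧ (40 : ℝ) ^ (om n) ≤ (n : ℝ) ^ θ) ∧
  ∀ N : ℕ, 1 ≤ N → ((N.divisors.filter (fun f => f.Coprime (2 * q))).card : ℝ) ≤ (N : ℝ) ^ θ

/-- **JBG** (120 lines). uses: EPJ, TAU. Proof. `θ = 1/100000`. `D ∈ S` is prime to `2 q` (`D₀` is odd and prime to `q`). `1 ≤ (j^100/K)^(1/1000)`: the sum is `≤ K^(-1/1000) ∑_(D, D') ∑_j wj j^(1/10) gw gw' ≤ K^(-1/1000) ∑_(D, D') 2 2^ω(D) 2^ω(D') 5^ω(gcd) gcd^(1/10)` (EPJ).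
For fixed `D`: `∑_(D') 5^ω(gcd) gcd^(1/10) ≤ ∑_(d ∣ D) 5^ω(d) d^(1/10) #{D' : d ∣ D'} ≤ ∑_(d ∣ D) 20^ω(d) (K² + K (16 Γ K⁴)^(1/10)) ≤ 2 K² ∑_(d ∣ D) 20^ω(d) ≤ 2 K² 40^ω(D)` (`dvd`; `τ(D) = 2^ω(D)`; `K` large). With `2^ω(D), 2^ω(D'), 40^ω(D) ≤ (16 Γ K⁴)^θ` (TAU) the total is
`≤ K^(-1/1000) K² 4 K² (16 Γ K⁴)^(3 θ) ≤ K^(4 - 1/2000)` for `K ≥ K₀(Γ)`. -/
def JBG_stmt : Prop := ∃ Z₀ : ℕ, ∀ Z ≥ Z₀, ∀ q D₀ Γ : ℕ, Sm Z q → Odd D₀ → D₀.Coprime q → 1 ≤ Γ → ∃ K₀ : ℕ, ∀ K ≥ K₀, ∀ (c₀ C₀ : ℝ) (S : Finset ℕ),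
  Fam c₀ C₀ q D₀ Γ K S → ∀ N : ℕ, ∑ D ∈ S, ∑ D' ∈ S, ∑ j ∈ (cop q N).filter (fun j => K < j ^ 100), wj j * gw D j * gw D' j ≤
    (K : ℝ) ^ (4 - 1 / 2000 : ℝ)

/-- **CHS** (90 lines). Proof. All `g` are odd (`c` odd, `M` even). `J(N|g) = J(g|N)` for odd `g` (`jacobiSym.quadratic_reciprocity_one_mod_four`). `g ↦ J(g|N)` has period `N`; since `M` is prime to `N`, `N` consecutive terms of the progression `c + M i` run over all residues modulo `N`, sum `0`: there is `a` prime to `N` with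
`J(a|N) = -1` (`N = r² e`, `e > 1` squarefree, `p ∣ e`: `a` a nonresidue modulo `p`, `a = 1` modulo the other prime factors of `N`), `∑_x J(x|N) = ∑_x J(a x|N) = - ∑_x J(x|N)`. An interval is a number of full periods and a rest of less than `N` terms. -/
def CHS_stmt : Prop := ∀ N M c : ℕ, N % 4 = 1 → ¬ IsSquare N → Even M → M.Coprime N → Odd c → ∀ a b : ℕ,
  |∑ g ∈ (Ioc a b).filter (fun g => g ≡ c [MOD M]), jacobiSym N g| ≤ (N : ℤ)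

/-- **LSH** (80 lines). uses: DUA, CHS. Proof. DUA with `A` = the `h`s, `B = S`, `φ h D = J(D|h)`, `Δ = H + #S R²`: for `b` on `S`: `∑_h (∑_D b_D J(D|h))² = ∑_(D, D') b_D b_D' ∑_h J(D D'|h)`. `D = D'`: inner sum between `0` and `H`. `D ≠ D'`: `N = D D' = 1` modulo `8`, not a square (squarefree, different),
CHS with `M = 2, c = 1`: `|..| ≤ D D' ≤ R²`; `∑ |b_D b_D'| ≤ #S ∑ b²`. -/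
def LSH_stmt : Prop := ∀ (S : Finset ℕ) (R H : ℕ), (∀ D ∈ S, Squarefree D ∧ D % 8 = 3 ∧ D ≤ R) → ∀ β : ℕ → ℝ,
  ∑ D ∈ S, (∑ h ∈ (Icc 1 H).filter (fun h => Odd h), β h * (jacobiSym D h : ℝ)) ^ 2 ≤
    ((H : ℝ) + S.card * (R : ℝ) ^ 2) * ∑ h ∈ (Icc 1 H).filter (fun h => Odd h), β h ^ 2

/-- **POW** (120 lines). uses: DUA, LSH. Proof. For `b` on `𝒢`: `X(b) = ∑_D (∑_g b_g J(D|g))²`. `X^k ≤ (#S)^(k-1) ∑_D (∑_g b_g J(D|g))^(2k)` (`inner`/power mean: `inner_le_nnorm_mul_nnorm` or `pow_sum_div_card_le_sum_pow`). `(∑_g b_g J(D|g))^k = ∑_h β_h J(D|h)`, `h ≤ H = (2G)^k` odd,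
`β_h = ∑_(t ∈ 𝒢^k, ∏ t = h) ∏ b_(t_i)` (`Finset.sum_pow'`, `jacobiSym.mul_right`, multiplicative in the lower entry). LSH: `∑_D (∑_h β_h J(D|h))² ≤ 2 (2G)^k ∑ β_h²`. `β_h² ≤ #{t : ∏ t = h} ∑_t ∏ b²`, `#{t} ≤ τ(h)^k ≤ ρ` (every `t_i ∣ h`), so `∑_h β_h² ≤ ρ (∑ b²)^k`.
So `X(b)^k ≤ Λ (∑ b²)^k`, `Λ = (#S)^(k-1) 2 (2G)^k ρ`, `X(b) ≤ Λ^(1/k) ∑ b²`; DUA, then `k`-th powers again. -/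
def POW_stmt : Prop := ∀ (S 𝒢 : Finset ℕ) (R k G : ℕ) (ρ : ℝ), (∀ D ∈ S, Squarefree D ∧ D % 8 = 3 ∧ D ≤ R) → 1 ≤ k → S.card * R ^ 2 ≤ (2 * G) ^ k →
  (∀ g ∈ 𝒢, Odd g ∧ g ≤ 2 * G) → 0 ≤ ρ → (∀ t : Fin k → ℕ, (∀ i, t i ∈ 𝒢) → ((∏ i, t i).divisors.card : ℝ) ^ k ≤ ρ) → ∀ c : ℕ → ℝ,
  (∑ g ∈ 𝒢, (∑ D ∈ S, c D * (jacobiSym D g : ℝ)) ^ 2) ^ k ≤
    (S.card : ℝ) ^ (k - 1) * (2 * ((2 * G : ℕ) : ℝ) ^ k) * ρ * (∑ D ∈ S, c D ^ 2) ^ k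

/-- **PWJ** (110 lines). uses: GC3, POW, TAU. One dyadic block. Proof. `θ = 10^(-6)`, `k = 80`. `D % 8 = 3` (class modulo `64 q`). `R = 16 Γ K⁴`, `#S R² ≤ K² 256 Γ² K⁸ ≤ K^20 ≤ (2G)^80` for large `K` (`(2 G)⁴ ≥ K`). POW with `𝒢` = the `g ∈ (G, 2G]` prime to `2 q`, `c D = cD D gw D j`, `ρ = ((2G)^80)^(80 θ)` (TAU: `τ(∏ t) ≤ (∏ t)^θ`).
`k`-th root: `∑_g B_j(g)² ≤ (#S)^(79/80) 2^(1/80) (2G) (2G)^(80 θ) ∑ cD² gw²`, `cD² ≤ 1/(Γ K⁴) ≤ K^(-4)`, GC3: `∑ gw² ≤ 2 K² 5^ω(j) √j`. With `#S ≤ K²`, `j ≤ K^(1/100)`, `(2G)^(80 θ) ≤ (2 K^41)^(80 θ) ≤ 2 K^(0.0033)`, `5^ω(j) ≤ 40^ω(j) ≤ j^θ ≤ K^(0.0001)`: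
`(1/G) ∑ ≤ 16 K^(2 - 1/40) K^(0.0033) K^(-4) K² K^(0.0001) K^(1/200) ≤ K^(-3/200)` for large `K`. -/
def PWJ_stmt : Prop := ∃ Z₀ : ℕ, ∀ Z ≥ Z₀, ∀ q D₀ Γ : ℕ, Sm Z q → D₀ % 8 = 3 → D₀.Coprime q → 1 ≤ Γ → ∃ K₀ : ℕ, ∀ K ≥ K₀, ∀ (c₀ C₀ : ℝ) (S : Finset ℕ),
  Fam c₀ C₀ q D₀ Γ K S → ∀ j G : ℕ, 1 ≤ j → j ^ 100 ≤ K → j.Coprime (2 * q) → K ≤ (2 * G) ^ 4 → G ≤ K ^ 41 →
  (1 / (G : ℝ)) * ∑ g ∈ (Ioc G (2 * G)).filter (fun g => g.Coprime (2 * q)), Bj S j g ^ 2 ≤ (K : ℝ) ^ (-(3 / 200) : ℝ)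

/-- **PWL** (80 lines). uses: PWJ, WSM. Proof. Cover the `g` with `K < g⁴`, `g ≤ K^41` by the blocks `(G, 2G]`, `G = 2^i`, `K < (2G)⁴`, `G ≤ K^41`: at most `41 log₂ K + 1` of them; `1/g ≤ 1/G`. PWJ; `∑_j wj j ≤ 2` (WSM and `wj 1 = 1`). Total `≤ 2 (60 log K + 1) K^(-3/200) ≤ K^(-1/100)`. -/
def PWL_stmt : Prop := ∃ Z₀ : ℕ, ∀ Z ≥ Z₀, ∀ q D₀ Γ : ℕ, Sm Z q → D₀ % 8 = 3 → D₀.Coprime q → 1 ≤ Γ → ∃ K₀ : ℕ, ∀ K ≥ K₀, ∀ (c₀ C₀ : ℝ) (S : Finset ℕ),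
  Fam c₀ C₀ q D₀ Γ K S →
  ∑ j ∈ (cop q K).filter (fun j => j ^ 100 ≤ K), wj j * ∑ g ∈ (cop q (K ^ 41)).filter (fun g => K < g ^ 4), 1 / (g : ℝ) * Bj S j g ^ 2 ≤
    (K : ℝ) ^ (-(1 / 100) : ℝ)

/-- **SMB** (90 lines). uses: GC3. One dyadic block, one `j`, one `a`. Proof. `Y = ∑_b (∑_D c_D J(D|b))²`, `c_D = cD D gw D j` if `(D, a) = 1`, else `0`; `b ∈ (G, 2G]` squarefree. (i) trivial: `|∑_D c_D J| ≤ ∑ cD gw ≤ (1/(√Γ K²)) 2 K² 2^ω(j)` (GC3, `D ≥ Γ K⁴`), at most `G` values of `b`: `Y/G ≤ 4 4^ω(j)/Γ`. (ii) `dls`: `Y/G ≤ C₀ K² G^(-9/10) (1/(Γ K⁴)) 2 K² 5^ω(j) √j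
= (2 C₀/Γ) G^(-9/10) 5^ω(j) √j`. So `Y/G ≤ (4 5^ω(j)/Γ) min(1, y)`, `y = (2 C₀ + 1) G^(-9/10) √j`, and `min(1, y) ≤ y^(1/5) ≤ (2 C₀ + 1) G^(-9/50) j^(1/10)`. -/
def SMB_stmt : Prop := ∀ (c₀ C₀ : ℝ) (q D₀ Γ K : ℕ) (S : Finset ℕ), 0 ≤ C₀ → 1 ≤ Γ → 1 ≤ K → Sm 256 q → Fam c₀ C₀ q D₀ Γ K S → ∀ j a G : ℕ, 1 ≤ j → j ≤ K → j.Coprime (2 * q) →
  1 ≤ G → G ^ 4 ≤ K → (1 / (G : ℝ)) * ∑ b ∈ (Ioc G (2 * G)).filter (fun b => Squarefree b ∧ b.Coprime (2 * q)),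
    (∑ D ∈ S.filter (fun D => D.Coprime a), cD D * gw D j * (jacobiSym D b : ℝ)) ^ 2 ≤
    (4 * (2 * C₀ + 1) / Γ) * 5 ^ (om j) * (j : ℝ) ^ (1 / 10 : ℝ) * (G : ℝ) ^ (-(9 / 50) : ℝ)

/-- **SML** (130 lines). uses: GC3, WSM, SMB. Proof. `g = a² b`, `b` squarefree (`Nat.sq_mul_squarefree`), `a, b` prime to `2 q`, `J(D|a² b) = J(D|b) [(D, a) = 1]`, so the sum over `g` is `≤ ∑_(a, b) (1/(a² b)) (∑_(D, (D, a) = 1) cD gw J(D|b))²`. `b = 1, a = 1` is `g = 1`: only `j > 1`; `B_j(1)² ≤ (2 2^ω(j)/√Γ)²` (GC3),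
`∑_(j > 1) wj 4 4^ω(j)/Γ ≤ (4/Γ) Z^(-1/4)` (WSM). `b = 1, a > 1`: `a > Z`, `∑ 1/a² ≤ 1/Z`; `≤ (4/Γ) ∑_j wj 5^ω(j) (1/Z) ≤ (8/Γ)/Z`. `b > 1`: `b > Z`; blocks `b ∈ (G, 2G]`, `G = 2^i ≥ Z/2`, `G⁴ ≤ K`, `1/b ≤ 1/G`: SMB; `∑_a 1/a² ≤ 2`, `∑_i (2^i)^(-9/50) ≤ 9 (Z/2)^(-9/50)` (geometric), `∑_j wj 5^ω(j) j^(1/10) ≤ 2` (WSM, `j = 1` gives `1`).
Total `≤ (C₁/Γ) Z^(-9/50)`, `C₁ = 200 (2 C₀ + 1)`. -/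
def SML_stmt : Prop := ∃ Z₀ : ℕ, ∀ Z ≥ Z₀, ∀ (c₀ C₀ : ℝ) (q D₀ Γ K : ℕ) (S : Finset ℕ), 0 ≤ C₀ → 1 ≤ Γ → 1 ≤ K → Sm Z q → Fam c₀ C₀ q D₀ Γ K S →
  ∑ j ∈ (cop q K).filter (fun j => j ^ 100 ≤ K), wj j * ∑ g ∈ (cop q K).filter (fun g => g ^ 4 ≤ K ∧ ¬ (j = 1 ∧ g = 1)), 1 / (g : ℝ) * Bj S j g ^ 2 ≤
    (200 * (2 * C₀ + 1) / Γ) * (Z : ℝ) ^ (-(9 / 50) : ℝ)

/-- the quadratic form in the families -/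
noncomputable def QF (q N G : ℕ) (S : Finset ℕ) : ℝ := ∑ j ∈ cop q N, wj j * ∑ g ∈ cop q G, 1 / (g : ℝ) * Bj S j g ^ 2

/-- **PRK** (120 lines). uses: JBG, PWL, SML. Proof. `QF - B(1)² = ` the sum over `(j, g) ≠ (1, 1)` (`wj 1 = 1`, `Bj S 1 1 = ∑ cD`). Lower bound `∑ cD ≥ c₀ K²/(4 √Γ K²) = c₀/(4 √Γ)`. (i) `j^100 ≤ K, g⁴ ≤ K`: SML `≤ (η/4) c₀²/(16 Γ)` if `Z ≥ Z₀(c₀, C₀, η)`. (ii) `j^100 ≤ K < g⁴`: PWL `≤ K^(-1/100)`. (iii) `j^100 > K`: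
`∑_(g ≤ K^41) 1/g ≤ 1 + 41 log K`, `B_j(g)² ≤ (∑ cD gw)²`, `∑_j wj (∑_D cD gw)² ≤ (1/(Γ K⁴)) ∑_(D, D') ∑_j wj gw gw' ≤ K^(-1/2000)` (JBG). (ii), (iii) `≤ (η/4) c₀²/(16 Γ)` for `K ≥ K₀`. -/
def PRK_stmt : Prop := ∀ c₀ C₀ η : ℝ, 0 < c₀ → 0 ≤ C₀ → 0 < η → ∃ Z₀ : ℕ, ∀ Z ≥ Z₀, ∀ q D₀ Γ : ℕ, Sm Z q → D₀ % 8 = 3 → D₀.Coprime q → 1 ≤ Γ →
  ∃ K₀ : ℕ, ∀ K ≥ K₀, ∀ S : Finset ℕ, Fam c₀ C₀ q D₀ Γ K S → ∀ N : ℕ, 1 ≤ N →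
    QF q N (K ^ 41) S ≤ (1 + η) * (∑ D ∈ S, cD D) ^ 2

/-- **MNK** (80 lines). Proof. `β_i = ∑_(D ∈ S_i) cD ≥ 0`, `β = ∑ β_i`. `(1, 1)` term of `QF` for the union: `β²` (`wj 1 = 1`, disjoint union: `B_j = ∑_i B_(j,i)`). For `(j, g) ≠ (1, 1)`: `(∑_i B_i)² ≤ β ∑_i B_i²/β_i` (Cauchy-Schwarz, `B_i = 0` if `β_i = 0`), so their weighted sum is `≤ β ∑_i (1/β_i) (QF(S_i) - β_i²) ≤ β ∑_i η β_i = η β²`. -/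
def MNK_stmt : Prop := ∀ (q N G : ℕ) (η : ℝ) (I : Finset ℕ) (S : ℕ → Finset ℕ), 0 ≤ η → 1 ≤ N → 1 ≤ G → (∀ i ∈ I, ∀ i' ∈ I, i ≠ i' → Disjoint (S i) (S i')) →
  (∀ i ∈ I, ∀ D ∈ S i, 1 ≤ D) → (∀ i ∈ I, QF q N G (S i) ≤ (1 + η) * (∑ D ∈ S i, cD D) ^ 2) →
  QF q N G (I.biUnion S) ≤ (1 + η) * (∑ D ∈ I.biUnion S, cD D) ^ 2

end Pool.Agent.SU
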