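import Pool.Agent.helper40.SU.SpecB

/-!
# Project su (MP_c66272_nt), Part II b: the second moment of the number of representations

`n = D s² + 4 w²`, `D ∈ S`, `T < √D s ≤ (1 + δ²) T`, `T < w ≤ (1 + δ) T`, `s = s₀` modulo `32 q`, `w = w₀` modulo `4 q`. Two representations `D s² + 4 w² = D' s'² + 4 w'²`: with `f = (w + w')/2`, `e = (w' - w)/2`: `16 e f = D s² - D' s'²`,
so they are counted by the triples `(s, s', f)` with `f ∣ D s² - D' s'²`, `f = w₀` modulo `4 q`, `T < f ≤ (1 + δ) T`. `f = j h`, `j` = the part of `f` made of the primes dividing `D s`; modulo `h`: `s = λ s'`, `λ² D = D'`; for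
fixed `(j, h, λ)` and `(s, s')` modulo `j` one counts lattice points in a box.
-/

set_option autoImplicit false

open Finset

namespace Pool.Agent.SU

noncomputable def sW (q s₀ : ℕ) (T δ : ℝ) (D : ℕ) : Finset ℕ :=
  (range (⌊2 * T⌋₊ + 1)).filter (fun s => s ≡ s₀ [MOD 32 * q] ∧ T < √(D : ℝ) * s ∧ √(D : ℝ) * s ≤ (1 + δ ^ 2) * T)

noncomputable def wW (q w₀ : ℕ) (T δ : ℝ) : Finset ℕ :=
  (range (⌊2 * T⌋₊ + 1)).filter (fun w => w ≡ w₀ [MOD 4 * q] ∧ T < w ∧ (w : ℝ) ≤ (1 + δ) * T)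

noncomputable def QQ (q s₀ w₀ : ℕ) (T δ : ℝ) (D D' : ℕ) : Finset ((ℕ × ℕ) × (ℕ × ℕ)) :=
  ((sW q s₀ T δ D ×ˢ wW q w₀ T δ) ×ˢ (sW q s₀ T δ D' ×ˢ wW q w₀ T δ)).filter
    (fun x => D * x.1.1 ^ 2 + 4 * x.1.2 ^ 2 = D' * x.2.1 ^ 2 + 4 * x.2.2 ^ 2)

/-- triples `(s, s', f)` -/
noncomputable def PP (q s₀ w₀ : ℕ) (T δ : ℝ) (D D' : ℕ) : Finset (ℕ × ℕ × ℕ) :=
  (sW q s₀ T δ D ×ˢ (sW q s₀ T δ D' ×ˢ wW q w₀ T δ)).filter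
    (fun x => (x.2.2 : ℤ) ∣ (D : ℤ) * (x.1 : ℤ) ^ 2 - (D' : ℤ) * (x.2.1 : ℤ) ^ 2)

/-- the represented numbers -/
noncomputable def Im (S : Finset ℕ) (q s₀ w₀ : ℕ) (T δ : ℝ) : Finset ℕ :=
  S.biUnion (fun D => (sW q s₀ T δ D ×ˢ wW q w₀ T δ).image (fun x => D * x.1 ^ 2 + 4 * x.2 ^ 2))

/-- **FST** (60 lines). Proof. The number of integers `n ≥ 0` with `a < n ≤ b`, `n = c` modulo `M` is `(b - a)/M` up to at most `1` (`0 ≤ a ≤ b`). `a = T/√D`, `b = (1 + δ²) T/√D ≤ 2 T`; `a = T, b = (1 + δ) T ≤ 2 T`. -/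
def FST_stmt : Prop := ∀ (q s₀ w₀ D : ℕ) (T δ : ℝ), 1 ≤ q → 1 ≤ D → 0 ≤ T → 0 < δ → δ ≤ 1 →
  |((sW q s₀ T δ D).card : ℝ) - δ ^ 2 * T / (32 * q * √(D : ℝ))| ≤ 1 ∧ |((wW q w₀ T δ).card : ℝ) - δ * T / (4 * q)| ≤ 1

/-- **TRI** (80 lines). Proof. For a member of `QQ` `w, w'` are odd (`w₀` odd), `w = w₀ + 4 q a`, `w' = w₀ + 4 q b` (integers `a, b`). `D s² = D' s'²` modulo `64 q` (`s = s'` modulo `32 q` gives `s² = s'²` modulo `64 q`), so `64 q ∣ 4 (w' - w) (w' + w) = 4 * 8 q (b - a) (w₀ + 2 q (a + b))`, and `w₀ + 2 q (a + b)` is odd: `b - a` is even.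
So `f = (w + w')/2 = w₀ + 2 q (a + b) = w₀` modulo `4 q`, `f ∈ wW`; with `e = (w' - w)/2`: `16 e f = D s² - D' s'²`: `(s, s', f) ∈ PP`. Injective: `f ≥ 1` and `16 e f` determine `e`, then `w = f - e`, `w' = f + e`. -/
def TRI_stmt : Prop := ∀ (q s₀ w₀ D D' : ℕ) (T δ : ℝ), Odd q → w₀.Coprime (2 * q) → D ≡ D' [MOD 64 * q] → 1 ≤ D → 1 ≤ D' → 1 ≤ T → 0 < δ → δ ≤ 1 →
  (QQ q s₀ w₀ T δ D D').card ≤ (PP q s₀ w₀ T δ D D').card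

/-- **CSW** (60 lines). Proof. `r(n)` = the number of `(D, s, w)` with value `n`: `∑_(n ∈ Im) r(n) = ∑_D #sW #wW`, `∑_n r(n)² = ∑_(D, D') #QQ` (`card_eq_sum_card_fiberwise`, `Finset.sigma`), Cauchy-Schwarz (`sq_sum_le_card_mul_sum_sq`). -/
def CSW_stmt : Prop := ∀ (S : Finset ℕ) (q s₀ w₀ : ℕ) (T δ : ℝ),
  (∑ D ∈ S, ((sW q s₀ T δ D).card : ℝ) * (wW q w₀ T δ).card) ^ 2 ≤
    (Im S q s₀ w₀ T δ).card * ∑ D ∈ S, ∑ D' ∈ S, ((QQ q s₀ w₀ T δ D D').card : ℝ)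

/-- the part of `f` made of the primes dividing `D s` -/
def irr (D s f : ℕ) : ℕ := ∏ p ∈ f.primeFactors.filter (fun p => p ∣ D * s), p ^ (f.factorization p)

def Cst (j D D' : ℕ) : Finset (ℕ × ℕ) :=
  (range j ×ˢ range j).filter (fun x => (j : ℤ) ∣ (D : ℤ) * (x.1 : ℤ) ^ 2 - (D' : ℤ) * (x.2 : ℤ) ^ 2 ∧ ∀ p ∈ j.primeFactors, p ∣ D * x.1)

/-- **IRR** (80 lines). Proof. `j = irr`, `h` = the product of the other prime powers of `f` (`Nat.factorization_prod_pow_eq_self`). `p ∣ h` does not divide `D s`; if it divided `D' s'` it would divide `D s²`. `Cst`: `j ∣ f`, reduce modulo `j` (for `p ∣ j`: `p ∣ D s`, `p ∣ D (s mod j)`). `s'` is a unit modulo `h`: `l = s/s'` modulo `h`;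
`l² D s'² = D s² = D' s'²` modulo `h`. (`h = 1`: `l = 0`.) -/
def IRR_stmt : Prop := ∀ D D' s s' f : ℕ, 1 ≤ f → (f : ℤ) ∣ (D : ℤ) * (s : ℤ) ^ 2 - (D' : ℤ) * (s' : ℤ) ^ 2 → ∃ h : ℕ, f = irr D s f * h ∧ (irr D s f).Coprime h ∧
  h.Coprime (D * s) ∧ h.Coprime (D' * s') ∧ (s % irr D s f, s' % irr D s f) ∈ Cst (irr D s f) D D' ∧
  ∃ l ∈ range h, (h : ℤ) ∣ (l : ℤ) ^ 2 * D - D' ∧ (h : ℤ) ∣ (s : ℤ) - l * s'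

/-- **SQC** (90 lines). Proof. `b = 0` trivial. If `p^b ∣ c`: `p^b ∣ x²`, so `p^⌈b/2⌉ ∣ x`: `p^⌊b/2⌋` values. Otherwise `c = p^i c'`, `p ∤ c'`, `i < b`; a solution has `v_p(x²) = i`, so `i = 2 i'`, `x = p^i' y`, `A y² = c'` modulo `p^(b - 2 i')`, `p ∤ y`: two solutions `y, y'` have `p^(b-2i') ∣ (y - y') (y + y')` and `p` divides only one factor
(`p ∤ 2 y`), so `y` is one of at most two classes modulo `p^(b - 2 i')`; `y` is counted modulo `p^(b - i')`: `2 p^i' ≤ 2 p^(b/2)`. -/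
def SQC_stmt : Prop := ∀ (p b : ℕ) (A c : ℤ), p.Prime → p ≠ 2 → ¬ (p : ℤ) ∣ A →
  (((range (p ^ b)).filter (fun x : ℕ => ((p ^ b : ℕ) : ℤ) ∣ A * (x : ℤ) ^ 2 - c)).card : ℝ) ≤ 2 * √((p : ℝ) ^ b)

/-- **CJP** (100 lines). uses: SQC. Proof. `wj(p^b) = 2/(p √(p^b))`. Let `(x, y) ∈ Cst`. (1) `p ∤ D D'`: `p ∣ x`, so `p ∣ y`: `p^(b-1)` values `y`, for each `≤ 2 √(p^b)` values `x`: total `≤ p^(2b) * 2/(p √(p^b))`. (2) `p ∣ D`, `p ∤ D'`: `p ∣ y`, `D = p D₁`, `p ∤ D₁`: `p D₁ x² = c` modulo `p^b` needs `c = p c₁`,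
`D₁ x² = c₁` modulo `p^(b-1)`: at most `p * 2 √(p^(b-1)) = 2 √p √(p^b)` values `x`; total `p^(b-1) 2 √p √(p^b) ≤ p^(2b) (2/(p √(p^b))) p^(3/4)`. (3) `p ∤ D`, `p ∣ D'`: `p ∣ x` (`p^(b-1)` values), the same for `y`. (4) `p ∣ D, D'`: `p^b` values `y`, `2 √p √(p^b)` values `x`: `2 p^(2b) √p/√(p^b) = p^(2b) (2/(p √(p^b))) p^(3/2)`. -/
def CJP_stmt : Prop := ∀ p b D D' : ℕ, p.Prime → p ≠ 2 → 1 ≤ b → Squarefree D → Squarefree D' →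
  ((Cst (p ^ b) D D').card : ℝ) ≤ ((p ^ b : ℕ) : ℝ) ^ 2 * wj (p ^ b) * gw D (p ^ b) * gw D' (p ^ b)

/-- **CJB** (70 lines). uses: CJP. Proof. `#Cst (a b) ≤ #Cst a * #Cst b` for coprime `a, b` (reduction modulo `a` and `b` is injective). `wj`, `gw D` are multiplicative. `Nat.recOnPosPrimePosCoprime`; `j = 1`: both sides `1`. -/
def CJB_stmt : Prop := ∀ j D D' : ℕ, Odd j → Squarefree D → Squarefree D' →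
  ((Cst j D D').card : ℝ) ≤ (j : ℝ) ^ 2 * wj j * gw D j * gw D' j

/-- `∑_(g ∣ f) J(N|g)` -/
def rr (N f : ℕ) : ℤ := ∑ g ∈ f.divisors, jacobiSym N g

/-- **RHO** (110 lines). Proof. Both sides: left `≤` product over coprime factors (Chinese remainder), `rr N` is multiplicative (`jacobiSym.mul_right`, divisors of a coprime product). Prime power `p^b`, `p` odd, `b ≥ 1`: `rr = ∑_(i ≤ b) J(N|p)^i`, which is `b + 1`, or `0` or `1`, or `1` according to `J(N|p) = 1, -1, 0`: it is `≥ 0` and `≤ b + 1`.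
If `p ∤ D D'`: `l² D = D'` modulo `p` gives `J(D D'|p) = 1`; then at most `2 ≤ b + 1` solutions modulo `p^b` (`l² = l'²` modulo `p^b`, `p ∤ 2 l`). `rr 1 = 1`. -/
def RHO_stmt : Prop := (∀ f D D' : ℕ, Odd f → f.Coprime (D * D') →
    (((range f).filter (fun l : ℕ => (f : ℤ) ∣ (l : ℤ) ^ 2 * D - D')).card : ℤ) ≤ rr (D * D') f) ∧
  ∀ f N : ℕ, Odd f → 0 ≤ rr N f ∧ rr N f ≤ f.divisors.card

/-- **ROT** (130 lines). Points of a coset of a lattice in a box. Proof. `B₀ = ⌊f/e⌋₊ + 1`, so `f/B₀ < e`. `Real.exists_rat_abs_sub_le_and_den_le (l/f) B₀`: `a/b` in lowest terms, `1 ≤ b ≤ B₀`, `|l/f - a/b| ≤ 1/((B₀ + 1) b)`. The vector `(b l - a f, b)` is in the lattice, `|b l - a f| ≤ f/(B₀ + 1) < e`, so `b ≥ e`.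
For every `y` at most one `x` (`L₁ ≤ f`), and it exists only if `(l y + c - x₁)/f` modulo `1` lies in the arc `(0, L₁/f]` (`θ = L₁/f`). Among `b` consecutive `y = Y + i` the points are `const + i a/b + i ε`, `|i ε| ≤ 1/(B₀ + 1) ≤ 1/b`, so `const + i a/b` is in an arc of length `θ + 2/b`; these are `b` equally spaced points (`gcd(a, b) = 1`):
at most `b (θ + 2/b) + 1 = b θ + 3`. The `≤ L₂ + 1` integers `y` are covered by `≤ L₂/b + 2` such blocks: `#A ≤ (L₂/b + 2) (b θ + 3) = θ L₂ + 3 L₂/b + 2 b θ + 6 ≤ L₁ L₂/f + 3 L₂/e + 2 (f/e + 1) L₁/f + 6 ≤ L₁ L₂/f + 3 L₂/e + 2 L₁/e + 8`. -/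
def ROT_stmt : Prop := ∀ (f : ℕ) (l c : ℤ) (e L₁ L₂ x₁ y₁ : ℝ), 1 ≤ f → 0 < e →
  (∀ x y : ℤ, (x, y) ≠ (0, 0) → (f : ℤ) ∣ x - l * y → e ≤ max |(x : ℝ)| |(y : ℝ)|) → 0 ≤ L₁ → L₁ ≤ f → 0 ≤ L₂ →
  ∀ A : Finset (ℤ × ℤ), (∀ z ∈ A, x₁ < z.1 ∧ (z.1 : ℝ) ≤ x₁ + L₁ ∧ y₁ < z.2 ∧ (z.2 : ℝ) ≤ y₁ + L₂ ∧ (f : ℤ) ∣ z.1 - l * z.2 - c) →
    (A.card : ℝ) ≤ L₁ * L₂ / f + 4 * (L₁ + L₂) / e + 8

/-- the window of the cofactors `h` of `j` -/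
noncomputable def Wj (q w₀ : ℕ) (T δ : ℝ) (j : ℕ) : Finset ℕ :=
  (range (⌊2 * T⌋₊ + 1)).filter (fun h => j * h ≡ w₀ [MOD 4 * q] ∧ T < (j : ℝ) * h ∧ (j : ℝ) * h ≤ (1 + δ) * T)

/-- **PGD** (150 lines). uses: IRR, RHO, ROT. Proof. Let `(s, s', f) ∈ PP`, `irr = j`, so `j` is prime to `2 q` (else the set is empty); `f = j h`, `h ∈ Wj`, `h` odd and prime to `D D' j`, `(s, s') mod j ∈ Cst`, `l` with `h ∣ l² D - D'`, `h ∣ s - l s'` (IRR). The number of `l` is `≤ rr (D D') h` (RHO). Fix `h`, `l` and the class `(a, b) ∈ Cst` modulo `j`: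
`s = α + 32 q j x`, `s' = β + 32 q j y` (`α, β` fixed by `s₀`, `a`, `b`: Chinese remainder, `32 q` and `j` coprime), `x, y` integers in half open intervals of lengths `L₁ = δ² T/(32 q j √D)`, `L₂ = δ² T/(32 q j √D')`, and `x - l y = c` modulo `h` (`32 q j` is a unit modulo `h`). ROT with `e = √(h/R)`: for `(x, y) ≠ 0` with `h ∣ x - l y`:
`h ∣ D x² - D' y²`, which is not `0` (`D ≠ D'` squarefree) and `|D x² - D' y²| ≤ R max(x², y²)`. `L₁ ≤ T/j < h`. ROT: `L₁ L₂/h ≤ L₁ L₂ j/T = δ⁴ T/(1024 q² √D √D' j)`; `4 (L₁ + L₂)/e ≤ (T/(4 j)) √(R/h) ≤ (1/4) √(R T/j) ≤ √(R T)`. Sum over `(a, b)`, `h`, `l` (`rr ≥ 0` for the other `h ∈ Wj`). -/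
def PGD_stmt : Prop := ∀ (q s₀ w₀ D D' j : ℕ) (T δ R : ℝ), Odd q → w₀.Coprime (2 * q) → 1 ≤ T → 0 < δ → δ ≤ 1 → Squarefree D → Squarefree D' → D ≠ D' →
  (D : ℝ) ≤ R → (D' : ℝ) ≤ R → 1 ≤ j →
  (((PP q s₀ w₀ T δ D D').filter (fun x => irr D x.1 x.2.2 = j)).card : ℝ) ≤
    (Cst j D D').card * (∑ h ∈ Wj q w₀ T δ j, (rr (D * D') h : ℝ)) * (δ ^ 4 * T / (1024 * q ^ 2 * √(D : ℝ) * √(D' : ℝ) * j) + √(R * T) + 8)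

/-- **SMR** (120 lines). uses: CHS. Proof. All `h ∈ Wj` are prime to `2 q`. `∑_h rr N h = ∑_(g, t) J(N|g)` over the pairs with `g t = h ∈ Wj`. `g ≤ G` (prime to `2 q`): `t` runs over `T/(j g) < t ≤ (1 + δ) T/(j g)` in one class modulo `4 q` (`j g t = w₀`): `δ T/(4 q j g)` up to `1`; the errors sum to `≤ G`. `g > G`: `t ≤ 2 T/(j G)`; for fixed `t` (prime to `2 q`)
`g` runs over an interval (`g > G`, `T/(j t) < g ≤ (1 + δ) T/(j t)`) in one class modulo `4 q`, odd: `|∑_g J(N|g)| ≤ N` (CHS, `M = 4 q`). -/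
def SMR_stmt : Prop := ∀ (q w₀ j N G : ℕ) (T δ : ℝ), Odd q → w₀.Coprime (2 * q) → j.Coprime (2 * q) → N.Coprime (2 * q) → N % 4 = 1 → ¬ IsSquare N →
  1 ≤ T → 0 < δ → δ ≤ 1 → 1 ≤ j → 1 ≤ G →
  ∑ h ∈ Wj q w₀ T δ j, (rr N h : ℝ) ≤
    δ * T / (4 * q * j) * (∑ g ∈ cop q G, 1 / (g : ℝ) * (jacobiSym N g : ℝ)) + G + (2 * T / (j * G) + 1) * N

/-- **LRG** (150 lines). uses: TAU, WSM, CJB, IRR. Proof. `θ = 10^(-5)`. `s, s' ∈ [1, 2T]`, `N = D s² - D' s'² ≠ 0`, `|N| ≤ 4 T²`; for given `(s, s')` at most `(4 T²)^θ` values `f` (TAU). `j = irr > T^(1/16)`. Take divisors `1 = d_0 ∣ d_1 ∣ .. = j`, quotients prime. (A) If all prime factors of `j` are `≤ T^(1/100)`, the first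
`t = d_i > T^(1/100)` is `≤ T^(1/50)`; `t ∣ N`, every prime of `t` divides `D s`: `(s, s') mod t ∈ Cst t`. (B) Otherwise a prime `p ∣ j`, `p > T^(1/100)`; `p ∤ D D'`, so `p ∣ s`, `p ∣ s'`. (A): for `t` at most `#Cst (2T/t + 1)² ≤ 9 T² #Cst/t² ≤ 9 T² wj t (D D')^(3/4)` pairs (CJB); `∑_(t > T^(1/100)) wj t ≤ T^(-1/1000) ∑ wj t t^(1/10) ≤ 2 T^(-1/1000)`
(WSM; `t` prime to `2 q`). (B): `∑_(p > T^(1/100)) (2T/p)² ≤ 8 T² T^(-1/100)`. Total `(18 T^(2 + 3/10000 - 1/1000) + 8 T^(2 - 1/100)) (4 T²)^θ ≤ T^(2 - 1/2000)`. -/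
def LRG_stmt : Prop := ∃ Z₀ : ℕ, ∀ Z ≥ Z₀, ∀ q : ℕ, Odd q → Sm Z q → ∃ T₀ : ℝ, ∀ T ≥ T₀, ∀ (δ : ℝ) (s₀ w₀ D D' : ℕ), 0 < δ → δ ≤ 1 → w₀.Coprime (2 * q) →
  Squarefree D → Squarefree D' → D ≠ D' → (D : ℝ) ≤ T ^ (1 / 5000 : ℝ) → (D' : ℝ) ≤ T ^ (1 / 5000 : ℝ) →
  (((PP q s₀ w₀ T δ D D').filter (fun x => T ^ (1 / 16 : ℝ) < (irr D x.1 x.2.2 : ℝ))).card : ℝ) ≤ T ^ (2 - 1 / 2000 : ℝ)

/-- **PPB** (150 lines). uses: PGD, SMR, LRG, CJB, RHO, TAU. Proof. `J₀ = ⌊T^(1/16)⌋₊`, `R = T^(1/5000)`, `N = D D' = 1` modulo `8`, not a square, prime to `2 q`, `A = δ⁴ T/(1024 q² √D √D')`. Triples with `irr > T^(1/16)`: LRG. For `j ≤ J₀` (prime to `2 q`, odd): PGD, CJB, SMR. `X_j = ∑_h rr ≥ 0`. First part: `#Cst X_j A/j ≤ j² wj gw gw' (A/j) [(δ T/(4 q j)) Σ + G + (2T/(jG) + 1) N]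
= (A δ T/(4 q)) wj gw gw' [Σ + (4 q j/(δ T)) (G + N) + 8 q N/(δ G)]`, `A δ T/(4 q) = (δ⁵ T²/(4096 q³)) cD D cD D'`; `8 q N/(δ G) ≤ η/2` by hypothesis, `(4 q j/(δ T)) (G + N) ≤ 8 q T^(1/16 + 1/2 - 1)/δ ≤ η/2` for large `T` (`N ≤ G` if `η δ ≤ 16 q`; in general `N ≤ T^(2/5000)`). Second part: `#Cst ≤ j²`, `X_j ≤ #Wj max τ(h) ≤ 3 T (2T)^θ` (RHO, TAU),
`√(R T) + 8`: sum over `j ≤ J₀` at most `T^(3/16) 3 T (2T)^θ (T^(0.5001) + 8) ≤ T^(1.7)`. -/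
def PPB_stmt : Prop := ∃ Z₀ : ℕ, ∀ Z ≥ Z₀, ∀ (q : ℕ) (δ η : ℝ), Odd q → Sm Z q → 0 < δ → δ ≤ 1 → 0 < η → ∃ T₀ : ℝ, ∀ T ≥ T₀, ∀ s₀ w₀ D D' G : ℕ, w₀.Coprime (2 * q) →
  Squarefree D → Squarefree D' → D ≠ D' → D % 8 = 3 → D' % 8 = 3 → D.Coprime q → D'.Coprime q → (D : ℝ) ≤ T ^ (1 / 5000 : ℝ) → (D' : ℝ) ≤ T ^ (1 / 5000 : ℝ) →
  1 ≤ G → (G : ℝ) ≤ T ^ (1 / 2 : ℝ) → 16 * q * ((D : ℝ) * D') ≤ η * δ * G →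
  ((PP q s₀ w₀ T δ D D').card : ℝ) ≤ δ ^ 5 * T ^ 2 / (4096 * q ^ 3) *
    (∑ j ∈ cop q ⌊T ^ (1 / 16 : ℝ)⌋₊, wj j * ((cD D * gw D j) * (cD D' * gw D' j)) *
      (∑ g ∈ cop q G, 1 / (g : ℝ) * (jacobiSym ((D * D' : ℕ) : ℤ) g : ℝ) + η)) + T ^ (2 - 1 / 3000 : ℝ)

/-- **DGN** (60 lines). uses: FST, TAU. Proof. `s = s'`: at most `#sW #wW` triples. `s ≠ s'`: at most `#sW² ≤ (δ² T/(32 q √D) + 1)² ≤ 4 T²/D` pairs (FST, `√D ≤ T`), `f ∣ |D s² - D s'²| ≤ 4 T²`, not `0`, `f` prime to `2 q`: at most `(4 T²)^θ` values (TAU). -/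
def DGN_stmt : Prop := ∃ Z₀ : ℕ, ∀ Z ≥ Z₀, ∀ q : ℕ, Odd q → Sm Z q → ∀ (s₀ w₀ D : ℕ) (T δ : ℝ), w₀.Coprime (2 * q) → 1 ≤ D → (D : ℝ) ≤ T ^ 2 → 1 ≤ T → 0 < δ → δ ≤ 1 →
  ((PP q s₀ w₀ T δ D D).card : ℝ) ≤ ((sW q s₀ T δ D).card : ℝ) * (wW q w₀ T δ).card + 16 * T ^ 2 / D * (4 * T ^ 2) ^ (1 / 1000000 : ℝ)

/-- **SCL** (130 lines). uses: PRK, MNK. Proof. `a = 1/100000`, `I` with `4^I ≤ T^a < 4^(I+1)`; scales `K_i = 4^i`, `I < i ≤ 2 I`, `S` = the union of the families, which are disjoint (`16 Γ K_i⁴ < Γ K_(i+1)⁴`). `G = 4^(40 I) ≤ T^(40 a)`, `G ≤ K_i^41`. `T^a < K_i ≤ T^(2a)`. `D ≤ 16 Γ K⁴ ≤ 16 Γ T^(8a) ≤ T^(1/5000)`; `D D' ≤ 256 Γ² 4^(16 I) ≤ κ 4^(40 I)`.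
`∑ cD ≥ ∑_i c₀ K_i²/(4 √Γ K_i²) = I c₀/(4 √Γ) ≥ A`. `∑ 1/D ≤ ∑_i K_i²/(Γ K_i⁴) ≤ 2 T^(-2a) ≤ T^(-a)`. `#S ≤ ∑ K_i² ≤ 2 T^(4a)`. `QF`: PRK for every scale (sums over `g ≤ G` are parts of the sums over `g ≤ K_i^41`, nonnegative terms), MNK. `D % 8 = 3`, `D` prime to `q` from `D = D₀` modulo `64 q`. -/
def SCL_stmt : Prop := ∀ c₀ C₀ η : ℝ, 0 < c₀ → 0 ≤ C₀ → 0 < η → ∃ Z₀ : ℕ, ∀ Z ≥ Z₀, ∀ (q D₀ Γ : ℕ) (P : ℕ → Prop), Odd q → Sm Z q → D₀ % 8 = 3 → D₀.Coprime q → 1 ≤ Γ →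
  (∃ K₀ : ℕ, ∀ K ≥ K₀, ∃ S : Finset ℕ, Fam c₀ C₀ q D₀ Γ K S ∧ ∀ D ∈ S, P D) → ∀ A κ : ℝ, 0 < κ → ∃ T₀ : ℝ, ∀ T ≥ T₀, ∃ (S : Finset ℕ) (G : ℕ),
    (∀ D ∈ S, P D ∧ Squarefree D ∧ D ≡ D₀ [MOD 64 * q] ∧ D % 8 = 3 ∧ D.Coprime q ∧ 1 ≤ D ∧ (D : ℝ) ≤ T ^ (1 / 5000 : ℝ)) ∧
    A ≤ ∑ D ∈ S, cD D ∧ ∑ D ∈ S, 1 / (D : ℝ) ≤ T ^ (-(1 / 100000) : ℝ) ∧ (S.card : ℝ) ≤ T ^ (1 / 10000 : ℝ) ∧ 1 ≤ G ∧ (G : ℝ) ≤ T ^ (1 / 2 : ℝ) ∧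
    (∀ D ∈ S, ∀ D' ∈ S, (D : ℝ) * D' ≤ κ * G) ∧ ∀ N : ℕ, 1 ≤ N → QF q N G S ≤ (1 + η) * (∑ D ∈ S, cD D) ^ 2

/-- **SEM** (150 lines). uses: FST, TRI, CSW, PPB, DGN, SCL. Proof. SCL with `κ = η δ/(16 q)` and `A = 64 q/(δ² η) + 1`. `B = ∑ cD ≥ A`, `C = δ⁵ T²/(4096 q³)`, `F₁ = ∑_D #sW #wW`, `E₂ = ∑ #QQ ≤ ∑ #PP` (TRI). Diagonal (DGN): `≤ F₁ + 16 T² (4 T²)^(10^(-6)) T^(-10^(-5))`. Off diagonal (PPB): the terms `D = D'` may be added (`∑_g J(D²|g)/g + η ≥ 0`);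
`∑_(D, D') (cD gw) (cD' gw') J(D D'|g) = B_j(g)²` (`jacobiSym.mul_left`): `≤ C (QF + η ∑_j wj B_j(1)²) + (#S)² T^(2 - 1/3000) ≤ C (1 + η)² B² + T^(2 - 1/3000 + 1/5000)`. For large `T` all errors are `≤ η C B²`. FST: `(1 - η) δ³ T² B/(128 q²) ≤ F₁ ≤ (1 + η) δ³ T² B/(128 q²)` (`T/√D ≥ T^(1 - 1/10000)`), and `F₁ ≤ η C B²` since `B ≥ A`.
So `E₂ ≤ (1 + 5 η) C B²`, CSW: `#Im ≥ F₁²/E₂ ≥ ((1 - η)²/(1 + 5 η)) δ T²/(4 q) ≥ (1 - 10 η) δ T²/(4 q)`. -/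
def SEM_stmt : Prop := ∀ c₀ C₀ δ η : ℝ, 0 < c₀ → 0 ≤ C₀ → 0 < δ → δ ≤ 1 → 0 < η → η ≤ 1 → ∃ Z₀ : ℕ, ∀ Z ≥ Z₀, ∀ (q D₀ Γ : ℕ) (P : ℕ → Prop), Odd q → Sm Z q →
  D₀ % 8 = 3 → D₀.Coprime q → 1 ≤ Γ → (∃ K₀ : ℕ, ∀ K ≥ K₀, ∃ S : Finset ℕ, Fam c₀ C₀ q D₀ Γ K S ∧ ∀ D ∈ S, P D) →
  ∀ s₀ w₀ : ℕ, w₀.Coprime (2 * q) → ∃ T₀ : ℝ, ∀ T ≥ T₀, ∃ S : Finset ℕ, (∀ D ∈ S, P D ∧ D ≡ D₀ [MOD 64 * q] ∧ 1 ≤ D) ∧
    (1 - 10 * η) * (δ * T ^ 2 / (4 * q)) ≤ (Im S q s₀ w₀ T δ).card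

open Classical in
/-- **PRO** (120 lines). uses: ADM, DCO, FAM, SEM. Proof. `T = √(N/5)`, `η = δ/100`, `P D = ∃ u k, D = Df m u k`, `D₀ = Df m u₀ k₀`, `Γ = Df m (64 q) (64 q)` (FAM, DCO: `D₀ % 8 = 3`). `n ∈ Im`: `n = D s² + (2 w)²` is admissible (ADM), `n = D₀ s₀² + 4 w₀²` modulo `32 q` (`4 w² = 4 w₀²` modulo `32 q` as `w = w₀` modulo `4 q`),
`N = 5 T² < n ≤ (1 + δ²)² T² + 4 (1 + δ)² T² ≤ (1 + 8 δ/5 + 7 δ²/5) N`. The class has at most `(8 δ/5 + 7 δ²/5) N/(32 q) + 1` members in that interval, at least `(1 - 10 η) (8 δ/5) N/(32 q)` of them are in `Im` (SEM; `δ T²/(4 q) = (8 δ/5) N/(32 q)`). So at most `(7/5 + 16/100) δ² N/(32 q) + 1 ≤ 10 δ² N/(32 q)` are not admissible. -/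
def PRO_stmt : Prop := ∀ δ : ℝ, 0 < δ → δ ≤ 1 / 100 → ∃ Z₀ : ℕ, ∀ Z ≥ Z₀, ∀ m q u₀ k₀ : ℕ, Dat Z m q u₀ k₀ → ∀ s₀ w₀ : ℕ, w₀.Coprime (2 * q) → ∃ N₀ : ℕ, ∀ N ≥ N₀,
  (((Ioc N ⌊(1 + 8 * δ / 5) * (N : ℝ)⌋₊).filter (fun n => n ≡ Df m u₀ k₀ * s₀ ^ 2 + 4 * w₀ ^ 2 [MOD 32 * q] ∧ ¬ Adm n)).card : ℝ) ≤
    10 * δ ^ 2 * N / (32 * q)

open Classical in
/-- **COV** (60 lines). Proof. `γ = 4 β/(λ - 1)`. Strong induction on `X`: `E(X) ≤ C₁ + γ X`, `C₁ = N₁ + 1`, `N₁` large. For `X ≤ N₁` trivial. `X > N₁`: `N = ⌈X/λ⌉₊`, `N₀ ≤ N < X ≤ ⌊λ N⌋₊`: `E(X) ≤ E(N) + β N ≤ C₁ + (γ + β) N`, `N ≤ X/λ + 1`, and `(γ + β) (X/λ + 1) ≤ γ X` for large `X`: `γ (X (1 - 1/λ) - 1) ≥ β (X/λ + 1)`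
(`X (1 - 1/λ) - 1 ≥ X (λ - 1)/(2 λ)`, `γ X (λ - 1)/(2 λ) = 2 β X/λ`). -/
def COV_stmt : Prop := ∀ (bad : ℕ → Prop) (l β : ℝ), 1 < l → l ≤ 2 → 0 ≤ β → (∃ N₀ : ℕ, ∀ N ≥ N₀, (((Ioc N ⌊l * (N : ℝ)⌋₊).filter bad).card : ℝ) ≤ β * N) →
  ∃ C₁ : ℝ, ∀ X : ℕ, (((range (X + 1)).filter bad).card : ℝ) ≤ C₁ + 4 * β / (l - 1) * X

open Classical in
/-- **FIN** (100 lines). uses: LOC, PRO, COV. Proof. `ε > 0`: `δ = min(ε/8, 1/100)`, `Z ≥ max(Z₀, 7)`. For every `r < 8 q0 Z` with `r % 8 = 7`: LOC gives `(m, q, u₀, k₀)`; for every class `n₀` modulo `32 q` with `n₀ = r` modulo `8 q0 Z` (`4 q/q0` classes): `(s₀, w₀)`, PRO gives `N₀`. For `N` larger than all of them: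
`#{n ∈ (N, λ N] : n % 8 = 7, not Adm} ≤ ∑_r (4 q/q0) 10 δ² N/(32 q) = (10/8) δ² N` (`q0` values `r`; `8 q0 ∣ 32 q`), `λ = 1 + 8 δ/5`. COV with `β = (10/8) δ²`: `4 β/(λ - 1) = (25/8) δ ≤ ε/2`. -/
def FIN_stmt : Prop := Filter.Tendsto (fun X : ℕ => (((range X).filter (fun n => n % 8 = 7 ∧ ¬ Adm n)).card : ℝ) / X) Filter.atTop (nhds 0)

end Pool.Agent.SU
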